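import Mathlib

/-!
# Pairs in general position
-/

set_option autoImplicit false

namespace Q217.TG

open Finset

/-- The pair `s`, `t` is in general position: every nontrivial combination with coefficients at most `B`
is larger than `T`. -/
def PairGen (B T s t : ℕ) : Prop :=
  ∀ c d : ℤ, |c| ≤ B → |d| ≤ B → (c ≠ 0 ∨ d ≠ 0) → (T : ℤ) < |c * s + d * t|

theorem card_line {c d : ℤ} (h : c ≠ 0 ∨ d ≠ 0) (T S : ℕ) :
    ((range (S + 1) ×ˢ range (S + 1)).filter
      (fun p : ℕ × ℕ => |c * (p.1 : ℤ) + d * (p.2 : ℤ)| ≤ T)).card ≤ (S + 1) * (2 * T + 1) := by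
  have hc : (range (S + 1) ×ˢ (Icc (-(T : ℤ)) T)).card = (S + 1) * (2 * T + 1) := by
    rw [card_product, card_range, Int.card_Icc]
    congr 1
    omega
  rw [← hc]
  by_cases hd : d = 0
  · have hc0 : c ≠ 0 := by tauto
    subst hd
    apply card_le_card_of_injOn (fun p : ℕ × ℕ => (p.2, c * (p.1 : ℤ)))
    · intro p hp
      simp only [coe_filter, Set.mem_setOf_eq, mem_product, mem_range] at hp
      simp only [coe_product, Set.mem_prod, mem_coe, mem_range, mem_Icc]
      have h2 := abs_le.1 hp.2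
      refine ⟨hp.1.2, ?_, ?_⟩ <;> linarith [h2.1, h2.2]
    · rintro ⟨s, t⟩ - ⟨s', t'⟩ - heq
      simp only [Prod.mk.injEq] at heq
      obtain ⟨h1, h2⟩ := heq
      have h3 := mul_left_cancel₀ hc0 h2
      simp only [Prod.mk.injEq]
      exact ⟨by exact_mod_cast h3, h1⟩
  · apply card_le_card_of_injOn (fun p : ℕ × ℕ => (p.1, c * (p.1 : ℤ) + d * (p.2 : ℤ)))
    · intro p hp
      simp only [coe_filter, Set.mem_setOf_eq, mem_product, mem_range] at hp
      simp only [coe_product, Set.mem_prod, mem_coe, mem_range, mem_Icc]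
      exact ⟨hp.1.1, abs_le.1 hp.2⟩
    · rintro ⟨s, t⟩ - ⟨s', t'⟩ - heq
      simp only [Prod.mk.injEq] at heq
      obtain ⟨h1, h2⟩ := heq
      subst h1
      have h3 := mul_left_cancel₀ hd (add_left_cancel h2)
      simp only [Prod.mk.injEq]
      exact ⟨trivial, by exact_mod_cast h3⟩

open Classical in
theorem card_bad (B T S : ℕ) :
    ((range (S + 1) ×ˢ range (S + 1)).filter (fun p : ℕ × ℕ => ¬ PairGen B T p.1 p.2)).card ≤
      (2 * B + 1) ^ 2 * ((S + 1) * (2 * T + 1)) := by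
  have hsub : (range (S + 1) ×ˢ range (S + 1)).filter
      (fun p : ℕ × ℕ => ¬ PairGen B T p.1 p.2) ⊆
      ((Icc (-(B : ℤ)) B ×ˢ Icc (-(B : ℤ)) B).filter (fun q => q.1 ≠ 0 ∨ q.2 ≠ 0)).biUnion
        (fun q => (range (S + 1) ×ˢ range (S + 1)).filter
          (fun p : ℕ × ℕ => |q.1 * (p.1 : ℤ) + q.2 * (p.2 : ℤ)| ≤ T)) := by
    intro p hp
    rw [mem_filter] at hp
    obtain ⟨hp1, hp2⟩ := hp
    unfold PairGen at hp2
    push Not at hp2
    obtain ⟨c, d, hc, hd, h0, h⟩ := hp2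
    rw [mem_biUnion]
    refine ⟨(c, d), ?_, ?_⟩
    · rw [mem_filter, mem_product, mem_Icc, mem_Icc]
      exact ⟨⟨abs_le.1 hc, abs_le.1 hd⟩, h0⟩
    · rw [mem_filter]
      exact ⟨hp1, h⟩
  refine (card_le_card hsub).trans ?_
  refine (card_biUnion_le_card_mul _ _ ((S + 1) * (2 * T + 1)) ?_).trans ?_
  · intro q hq
    rw [mem_filter] at hq
    exact card_line hq.2 T S
  · apply Nat.mul_le_mul_right
    refine (card_filter_le _ _).trans ?_
    rw [card_product, Int.card_Icc]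
    apply le_of_eq
    rw [sq]
    congr 1 <;> omega

end Q217.TG
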