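import Pool.Agent.Q217.TG.Repr

/-!
# Quadruples `x ^ 2 + y ^ 2 + z ^ 2 + 4 w ^ 2 = n` with a linear relation of `x`, `y`, `z`
-/

set_option autoImplicit false

namespace Q217.TG

open Finset

/-- The triple `x`, `y`, `z` is in general position. -/
def TripleGen (B T x y z : ℕ) : Prop :=
  ∀ a b c : ℤ, |a| ≤ B → |b| ≤ B → |c| ≤ B → (a ≠ 0 ∨ b ≠ 0 ∨ c ≠ 0) →
    (T : ℤ) < |a * x + b * y + c * z|

/-- `D` bounds the numbers of representations -/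
def DivBound (B n D : ℕ) : Prop :=
  ∀ K : ℕ, K ≤ 2 * B ^ 4 * n → 4 * (5 * K.divisors.card ^ 2 + 2) ≤ D

theorem plane_card' {B n D : ℕ} (hD : DivBound B n D) (a b u m : ℤ) (ha : a ≠ 0) (haB : |a| ≤ B)
    (hbB : |b| ≤ B) (hm : m ≤ n) (F : Finset (ℤ × ℤ × ℤ))
    (hF : ∀ p ∈ F, a * p.1 + b * p.2.1 = u ∧ p.1 ^ 2 + p.2.1 ^ 2 + 4 * p.2.2 ^ 2 = m) :
    F.card ≤ D := by
  rcases F.eq_empty_or_nonempty with h0 | ⟨p, hp⟩
  · rw [h0]; simp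
  refine (plane_card a b u m ha F hF).trans (hD _ ?_)
  obtain ⟨h1, h2⟩ := hF p hp
  have hm0 : 0 ≤ m := by rw [← h2]; positivity
  have ha2 : a ^ 2 ≤ (B : ℤ) ^ 2 := sq_le_sq' (by linarith [(abs_le.1 haB).1]) (abs_le.1 haB).2
  have hb2 : b ^ 2 ≤ (B : ℤ) ^ 2 := sq_le_sq' (by linarith [(abs_le.1 hbB).1]) (abs_le.1 hbB).2
  obtain ⟨K, hK⟩ : ∃ K : ℤ, K = a ^ 2 * ((a ^ 2 + b ^ 2) * m - u ^ 2) := ⟨_, rfl⟩
  have hK0 : 0 ≤ K := by
    rw [hK, ← h1, ← h2]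
    have : a ^ 2 * ((a ^ 2 + b ^ 2) * (p.1 ^ 2 + p.2.1 ^ 2 + 4 * p.2.2 ^ 2) -
        (a * p.1 + b * p.2.1) ^ 2) =
        a ^ 2 * ((a * p.2.1 - b * p.1) ^ 2 + 4 * (a ^ 2 + b ^ 2) * p.2.2 ^ 2) := by ring
    rw [this]
    positivity
  have hKle : K ≤ 2 * (B : ℤ) ^ 4 * n := by
    have h3 : (a ^ 2 + b ^ 2) * m - u ^ 2 ≤ 2 * (B : ℤ) ^ 2 * n := by
      have h4 : (a ^ 2 + b ^ 2) * m ≤ (2 * (B : ℤ) ^ 2) * n :=
        mul_le_mul (by linarith) hm hm0 (by positivity)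
      nlinarith [sq_nonneg u]
    calc K ≤ a ^ 2 * (2 * (B : ℤ) ^ 2 * n) := by
          rw [hK]; exact mul_le_mul_of_nonneg_left h3 (sq_nonneg a)
      _ ≤ (B : ℤ) ^ 2 * (2 * (B : ℤ) ^ 2 * n) := mul_le_mul_of_nonneg_right ha2 (by positivity)
      _ = _ := by ring
  rw [← hK]
  have e1 : ((K.natAbs : ℕ) : ℤ) = K := Int.natAbs_of_nonneg hK0
  have e2 : ((K.natAbs : ℕ) : ℤ) ≤ ((2 * B ^ 4 * n : ℕ) : ℤ) := by
    rw [e1]; push_cast; exact hKle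
  exact_mod_cast e2

/-- the case `a ≠ 0` -/
theorem plane_total {B n D : ℕ} (hD : DivBound B n D) (T : ℕ) (a b c : ℤ) (ha : a ≠ 0)
    (haB : |a| ≤ B) (hbB : |b| ≤ B) (F : Finset (ℕ × ℕ × ℕ × ℕ))
    (hF : ∀ p ∈ F, n = p.1 ^ 2 + p.2.1 ^ 2 + p.2.2.1 ^ 2 + 4 * p.2.2.2 ^ 2 ∧
      |a * p.1 + b * p.2.1 + c * p.2.2.1| ≤ T) :
    F.card ≤ D * ((Nat.sqrt n + 1) * (2 * T + 1)) := by
  classical
  have hcard : (range (Nat.sqrt n + 1) ×ˢ (Icc (-(T : ℤ)) T)).card =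
      (Nat.sqrt n + 1) * (2 * T + 1) := by
    rw [card_product, card_range, Int.card_Icc]
    congr 1
    omega
  rw [← hcard]
  apply card_le_mul_card_image_of_maps_to
    (f := fun p : ℕ × ℕ × ℕ × ℕ => (p.2.2.1, a * (p.1 : ℤ) + b * (p.2.1 : ℤ) + c * (p.2.2.1 : ℤ)))
  · intro p hp
    obtain ⟨h1, h2⟩ := hF p hp
    rw [mem_product, mem_range, mem_Icc]
    refine ⟨?_, abs_le.1 h2⟩
    rw [Nat.lt_succ_iff, Nat.le_sqrt']
    dsimp only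
    omega
  · rintro ⟨z, t⟩ -
    have hinj : Set.InjOn (fun p : ℕ × ℕ × ℕ × ℕ => ((p.1 : ℤ), (p.2.1 : ℤ), (p.2.2.2 : ℤ)))
        ((F.filter (fun p : ℕ × ℕ × ℕ × ℕ =>
          (p.2.2.1, a * (p.1 : ℤ) + b * (p.2.1 : ℤ) + c * (p.2.2.1 : ℤ)) = (z, t)) :
          Finset (ℕ × ℕ × ℕ × ℕ)) : Set (ℕ × ℕ × ℕ × ℕ)) := by
      rintro ⟨x, y, z₁, w⟩ hp ⟨x', y', z₂, w'⟩ hp' heq
      rw [mem_coe, mem_filter] at hp hp'
      simp only [Prod.mk.injEq] at hp hp' heq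
      obtain ⟨h1, h2, h3⟩ := heq
      have e1 : x = x' := by exact_mod_cast h1
      have e2 : y = y' := by exact_mod_cast h2
      have e3 : w = w' := by exact_mod_cast h3
      rw [e1, e2, e3, hp.2.1, hp'.2.1]
    rw [← card_image_of_injOn hinj]
    apply plane_card' hD a b (t - c * z) (n - (z : ℤ) ^ 2) ha haB hbB
      (by nlinarith [sq_nonneg (z : ℤ)])
    intro q hq
    obtain ⟨p, hp, rfl⟩ := mem_image.1 hq
    obtain ⟨hp1, hp2⟩ := mem_filter.1 hp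
    simp only [Prod.mk.injEq] at hp2
    obtain ⟨h1, -⟩ := hF p hp1
    have h1' : (n : ℤ) = (p.1 : ℤ) ^ 2 + (p.2.1 : ℤ) ^ 2 + (p.2.2.1 : ℤ) ^ 2 +
        4 * (p.2.2.2 : ℤ) ^ 2 := by exact_mod_cast h1
    dsimp only
    rw [h1', ← hp2.1, ← hp2.2]
    constructor <;> ring

theorem line_total {B n D : ℕ} (hD : DivBound B n D) (T : ℕ) (a b c : ℤ)
    (h0 : a ≠ 0 ∨ b ≠ 0 ∨ c ≠ 0) (haB : |a| ≤ B) (hbB : |b| ≤ B) (hcB : |c| ≤ B)
    (F : Finset (ℕ × ℕ × ℕ × ℕ))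
    (hF : ∀ p ∈ F, n = p.1 ^ 2 + p.2.1 ^ 2 + p.2.2.1 ^ 2 + 4 * p.2.2.2 ^ 2 ∧
      |a * p.1 + b * p.2.1 + c * p.2.2.1| ≤ T) :
    F.card ≤ D * ((Nat.sqrt n + 1) * (2 * T + 1)) := by
  classical
  by_cases ha : a = 0
  · by_cases hb : b = 0
    · have hc : c ≠ 0 := by tauto
      have hinj : Function.Injective
          (fun p : ℕ × ℕ × ℕ × ℕ => (p.2.2.1, p.2.1, p.1, p.2.2.2)) := by
        rintro ⟨x, y, z, w⟩ ⟨x', y', z', w'⟩ h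
        simp only [Prod.mk.injEq] at h ⊢
        tauto
      rw [← card_image_of_injective F hinj]
      apply plane_total hD T c b a hc hcB hbB
      intro q hq
      obtain ⟨p, hp, rfl⟩ := mem_image.1 hq
      obtain ⟨h1, h2⟩ := hF p hp
      dsimp only
      constructor
      · rw [h1]; ring
      · rw [show c * (p.2.2.1 : ℤ) + b * (p.2.1 : ℤ) + a * (p.1 : ℤ) =
          a * (p.1 : ℤ) + b * (p.2.1 : ℤ) + c * (p.2.2.1 : ℤ) by ring]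
        exact h2
    · have hinj : Function.Injective
          (fun p : ℕ × ℕ × ℕ × ℕ => (p.2.1, p.1, p.2.2.1, p.2.2.2)) := by
        rintro ⟨x, y, z, w⟩ ⟨x', y', z', w'⟩ h
        simp only [Prod.mk.injEq] at h ⊢
        tauto
      rw [← card_image_of_injective F hinj]
      apply plane_total hD T b a c hb hbB haB
      intro q hq
      obtain ⟨p, hp, rfl⟩ := mem_image.1 hq
      obtain ⟨h1, h2⟩ := hF p hp
      dsimp only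
      constructor
      · rw [h1]; ring
      · rw [show b * (p.2.1 : ℤ) + a * (p.1 : ℤ) + c * (p.2.2.1 : ℤ) =
          a * (p.1 : ℤ) + b * (p.2.1 : ℤ) + c * (p.2.2.1 : ℤ) by ring]
        exact h2
  · exact plane_total hD T a b c ha haB hbB F hF

/-- the number of quadruples which are not in general position -/
theorem card_bad_three {B n D : ℕ} (hD : DivBound B n D) (T : ℕ) (F : Finset (ℕ × ℕ × ℕ × ℕ))
    (hF : ∀ p ∈ F, n = p.1 ^ 2 + p.2.1 ^ 2 + p.2.2.1 ^ 2 + 4 * p.2.2.2 ^ 2 ∧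
      ¬ TripleGen B T p.1 p.2.1 p.2.2.1) :
    F.card ≤ (2 * B + 1) ^ 3 * (D * ((Nat.sqrt n + 1) * (2 * T + 1))) := by
  classical
  obtain ⟨I, hI⟩ : ∃ I : Finset ℤ, I = Icc (-(B : ℤ)) B := ⟨_, rfl⟩
  have hsub : F ⊆ ((I ×ˢ I ×ˢ I).filter (fun q => q.1 ≠ 0 ∨ q.2.1 ≠ 0 ∨ q.2.2 ≠ 0)).biUnion
      (fun q => F.filter (fun p : ℕ × ℕ × ℕ × ℕ =>
        |q.1 * (p.1 : ℤ) + q.2.1 * (p.2.1 : ℤ) + q.2.2 * (p.2.2.1 : ℤ)| ≤ T)) := by
    intro p hp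
    obtain ⟨-, hp2⟩ := hF p hp
    unfold TripleGen at hp2
    push Not at hp2
    obtain ⟨a, b, c, ha, hb, hc, h0, h⟩ := hp2
    rw [mem_biUnion]
    refine ⟨(a, b, c), ?_, ?_⟩
    · rw [mem_filter, mem_product, mem_product, hI, mem_Icc, mem_Icc, mem_Icc]
      exact ⟨⟨abs_le.1 ha, abs_le.1 hb, abs_le.1 hc⟩, h0⟩
    · rw [mem_filter]
      exact ⟨hp, h⟩
  refine (card_le_card hsub).trans ?_
  refine (card_biUnion_le_card_mul _ _ (D * ((Nat.sqrt n + 1) * (2 * T + 1))) ?_).trans ?_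
  · rintro ⟨a, b, c⟩ hq
    rw [mem_filter, mem_product, mem_product, hI, mem_Icc, mem_Icc, mem_Icc] at hq
    obtain ⟨⟨ha, hb, hc⟩, h0⟩ := hq
    apply line_total hD T a b c h0 (abs_le.2 ha) (abs_le.2 hb) (abs_le.2 hc)
    intro p hp
    rw [mem_filter] at hp
    exact ⟨(hF p hp.1).1, hp.2⟩
  · apply Nat.mul_le_mul_right
    refine (card_filter_le _ _).trans ?_
    rw [card_product, card_product, hI, Int.card_Icc]
    apply le_of_eq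
    have : ((B : ℤ) + 1 - -(B : ℤ)).toNat = 2 * B + 1 := by omega
    rw [this]
    ring

end Q217.TG
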