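import Mathlib

/-!
# The polynomials `v₁ X ^ Y₁ + v₂ Z ^ Y₂ + v₀`
-/

set_option autoImplicit false

namespace Q217.TG

open Polynomial

theorem binom_primitive {v₀ v₂ : ℤ} (hc : IsCoprime v₀ v₂) {Y₂ : ℕ} (hY₂ : 1 ≤ Y₂) :
    (C v₂ * X ^ Y₂ + C v₀ : ℤ[X]).IsPrimitive := by
  intro r hr
  rw [C_dvd_iff_dvd_coeff] at hr
  have h1 := hr Y₂
  have h2 := hr 0
  simp only [coeff_add, coeff_C_mul, coeff_X_pow, coeff_C] at h1 h2
  rw [if_pos trivial, if_neg (by omega)] at h1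
  rw [if_neg (by omega), if_pos trivial] at h2
  exact hc.isUnit_of_dvd' (by simpa using h2) (by simpa using h1)

theorem binom_degree {v₀ v₂ : ℤ} (h₂ : v₂ ≠ 0) (Y₂ : ℕ) :
    (C v₂ * X ^ Y₂ + C v₀ : ℤ[X]).natDegree = Y₂ := by
  rw [natDegree_add_C, natDegree_C_mul_X_pow _ _ h₂]

/-- a factor of degree zero of a primitive polynomial is a unit -/
theorem unit_of_dvd_primitive {f p : ℤ[X]} (hf : f.IsPrimitive) (hp : p ∣ f)
    (hdeg : p.natDegree = 0) : IsUnit p := by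
  rw [natDegree_eq_zero] at hdeg
  obtain ⟨r, rfl⟩ := hdeg
  exact isUnit_C.2 (hf r hp)

theorem exists_prime_factor {v₀ v₂ : ℤ} (h₂ : v₂ ≠ 0) (hc : IsCoprime v₀ v₂) {Y₂ : ℕ}
    (hY₂ : 1 ≤ Y₂) :
    ∃ p : ℤ[X], Prime p ∧ p ∣ (C v₂ * X ^ Y₂ + C v₀ : ℤ[X]) ∧ 0 < p.natDegree := by
  have hprim := binom_primitive hc hY₂
  have hdeg := binom_degree (v₀ := v₀) h₂ Y₂
  have hne : (C v₂ * X ^ Y₂ + C v₀ : ℤ[X]) ≠ 0 := by
    intro h
    rw [h, natDegree_zero] at hdeg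
    omega
  have hnu : ¬ IsUnit (C v₂ * X ^ Y₂ + C v₀ : ℤ[X]) := by
    intro h
    have := natDegree_eq_zero_of_isUnit h
    omega
  obtain ⟨p, hp, hpd⟩ := WfDvdMonoid.exists_irreducible_factor hnu hne
  refine ⟨p, hp.prime, hpd, ?_⟩
  by_contra hcon
  exact hp.not_isUnit (unit_of_dvd_primitive hprim hpd (by omega))

theorem prime_tri {v₀ v₁ v₂ : ℤ} (h₀ : v₀ ≠ 0) (h₁ : v₁ ≠ 0) (h₂ : v₂ ≠ 0) (hc : IsCoprime v₀ v₂)
    {Y₁ Y₂ : ℕ} (hY₁ : 1 ≤ Y₁) (hY₂ : 1 ≤ Y₂) :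
    Prime (C (C v₁) * X ^ Y₁ + C (C v₂ * X ^ Y₂ + C v₀) : ℤ[X][X]) := by
  obtain ⟨p, hp, ⟨u, hu⟩, hpdeg⟩ := exists_prime_factor h₂ hc hY₂
  have hprim := binom_primitive hc hY₂
  have hv₁ : (C v₁ : ℤ[X]) ≠ 0 := by simpa using h₁
  have hdeg : (C (C v₁) * X ^ Y₁ + C (C v₂ * X ^ Y₂ + C v₀) : ℤ[X][X]).natDegree = Y₁ := by
    rw [natDegree_add_C, natDegree_C_mul_X_pow _ _ hv₁]
  have hlead : (C (C v₁) * X ^ Y₁ + C (C v₂ * X ^ Y₂ + C v₀) : ℤ[X][X]).leadingCoeff = C v₁ := by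
    rw [leadingCoeff, hdeg, coeff_add, coeff_C_mul, coeff_X_pow, if_pos rfl, coeff_C,
      if_neg (by omega), mul_one, add_zero]
  have hcoeff0 : (C (C v₁) * X ^ Y₁ + C (C v₂ * X ^ Y₂ + C v₀) : ℤ[X][X]).coeff 0 =
      C v₂ * X ^ Y₂ + C v₀ := by
    rw [coeff_add, coeff_C_mul, coeff_X_pow, if_neg (by omega), coeff_C_zero, mul_zero, zero_add]
  have hconst : ∀ r : ℤ, r ≠ 0 → ¬ p ∣ C r := by
    intro r hr hd
    have := natDegree_le_of_dvd hd (by simpa using hr)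
    rw [natDegree_C] at this
    omega
  have hdpos : 0 < (C (C v₁) * X ^ Y₁ + C (C v₂ * X ^ Y₂ + C v₀) : ℤ[X][X]).degree := by
    rw [← natDegree_pos_iff_degree_pos, hdeg]
    omega
  have hirr : Irreducible (C (C v₁) * X ^ Y₁ + C (C v₂ * X ^ Y₂ + C v₀) : ℤ[X][X]) := by
    apply irreducible_of_eisenstein_criterion (P := Ideal.span {p})
    · rw [Ideal.span_singleton_prime hp.ne_zero]
      exact hp
    · rw [hlead, Ideal.mem_span_singleton]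
      exact hconst _ h₁
    · intro n hn
      rw [degree_eq_natDegree (ne_zero_of_natDegree_gt (n := 0) (by omega)), hdeg,
        Nat.cast_lt] at hn
      rw [Ideal.mem_span_singleton]
      rcases Nat.eq_zero_or_pos n with rfl | hn0
      · rw [hcoeff0, hu]
        exact dvd_mul_right _ _
      · rw [coeff_add, coeff_C_mul, coeff_X_pow, if_neg (by omega), coeff_C, if_neg (by omega)]
        simp
    · exact hdpos
    · rw [hcoeff0, Ideal.span_singleton_pow, Ideal.mem_span_singleton]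
      rintro ⟨w, hw⟩
      have hder := congrArg derivative hw
      rw [derivative_add, derivative_C, add_zero, derivative_C_mul_X_pow, derivative_mul,
        derivative_pow] at hder
      have hkey : p ∣ C ((Y₂ : ℤ) * v₀) := by
        have e1 : (C ((Y₂ : ℤ) * v₀) : ℤ[X]) = C (Y₂ : ℤ) * (C v₂ * X ^ Y₂ + C v₀) -
            X * (C (v₂ * (Y₂ : ℤ)) * X ^ (Y₂ - 1)) := by
          have e2 : (X : ℤ[X]) ^ Y₂ = X * X ^ (Y₂ - 1) := by
            rw [← pow_succ']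
            congr 1
            omega
          rw [e2]
          simp only [C_mul]
          ring
        rw [e1]
        apply dvd_sub
        · rw [hu]
          exact (dvd_mul_right _ _).mul_left _
        · rw [hder]
          apply Dvd.dvd.mul_left
          refine ⟨C 2 * derivative p * w + p * derivative w, ?_⟩
          simp only [C_ofNat]
          norm_num
          ring
      exact hconst _ (mul_ne_zero (by omega) h₀) hkey
    · intro r hr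
      rw [C_dvd_iff_dvd_coeff] at hr
      have h3 := hr 0
      rw [hcoeff0] at h3
      have h4 := hr Y₁
      have hl := hlead
      rw [leadingCoeff, hdeg] at hl
      rw [hl] at h4
      have h5 := natDegree_le_of_dvd h4 hv₁
      rw [natDegree_C] at h5
      exact unit_of_dvd_primitive hprim h3 (by omega)
  exact hirr.prime

theorem eval_tri (v₀ v₁ v₂ : ℤ) (Y₁ Y₂ : ℕ) :
    ((C (C v₁) * X ^ Y₁ + C (C v₂ * X ^ Y₂ + C v₀) : ℤ[X][X]).eval 1).eval 1 = v₁ + v₂ + v₀ := by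
  simp
  ring

theorem not_dvd_C {v₀ v₁ v₂ : ℤ} (h₁ : v₁ ≠ 0) {Y₁ : ℕ} (Y₂ : ℕ) (hY₁ : 1 ≤ Y₁) {g : ℤ[X]}
    (hg : g ≠ 0) : ¬ (C (C v₁) * X ^ Y₁ + C (C v₂ * X ^ Y₂ + C v₀) : ℤ[X][X]) ∣ C g := by
  intro hd
  have hv₁ : (C v₁ : ℤ[X]) ≠ 0 := by simpa using h₁
  have h2 := natDegree_le_of_dvd hd (by simpa using hg)
  rw [natDegree_C, natDegree_add_C, natDegree_C_mul_X_pow _ _ hv₁] at h2
  omega

theorem not_dvd_X {v₀ v₁ v₂ : ℤ} (h₀ : v₀ ≠ 0) (h₁ : v₁ ≠ 0) (h₂ : v₂ ≠ 0) (hc : IsCoprime v₀ v₂)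
    {Y₁ Y₂ : ℕ} (hY₁ : 1 ≤ Y₁) (hY₂ : 1 ≤ Y₂) :
    ¬ (C (C v₁) * X ^ Y₁ + C (C v₂ * X ^ Y₂ + C v₀) : ℤ[X][X]) ∣ X := by
  intro hd
  have hp := prime_tri h₀ h₁ h₂ hc hY₁ hY₂
  have hX : Prime (X : ℤ[X][X]) := prime_X
  have h3 := (hp.dvd_prime_iff_associated hX).1 hd
  have h4 : (X : ℤ[X][X]) ∣ (C (C v₁) * X ^ Y₁ + C (C v₂ * X ^ Y₂ + C v₀) : ℤ[X][X]) := h3.dvd'
  rw [X_dvd_iff, coeff_add, coeff_C_mul, coeff_X_pow, if_neg (by omega), coeff_C_zero, mul_zero,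
    zero_add] at h4
  have h5 := binom_degree (v₀ := v₀) h₂ Y₂
  rw [h4, natDegree_zero] at h5
  omega

end Q217.TG
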