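import Pool.Agent.Q217.TG.Weights
import Pool.Agent.Q217.TG.PrimeTri
import Pool.Agent.Q217.SG.ClosedGen

/-!
# Euclid's lemma among sparse integers for sums of several powers with exponents in general position
-/

set_option autoImplicit false

namespace Q217.TG

open Finset Polynomial

/-- closed sets of indices -/
def Closed {J : Type*} (E : J → ℤ) (h : ℕ) (S : Finset J) : Prop :=
  ∀ i ∈ S, ∀ j, E i ≤ E j + h → E j ≤ E i + h → j ∈ S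

/-- The vanishing of the sums over closed sets is preserved by the introduction of weights. -/
theorem closed_lift {R J : Type*} [CommRing R] [Fintype J] [DecidableEq J] {E : J → ℤ} {h : ℕ}
    {τ : J → R} (hgap : ∀ S : Finset J, Closed E h S → ∑ i ∈ S, τ i = 0) {w : J → ℕ}
    (hw : ∀ i j, E i ≤ E j + h → E j ≤ E i + h → w i = w j) (S : Finset J)
    (hS : Closed E h S) : ∑ i ∈ S, (C (τ i) * X ^ w i : R[X]) = 0 := by
  ext n
  rw [finsetSum_coeff, coeff_zero]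
  have h1 : ∑ i ∈ S.filter (fun i => w i = n), τ i = 0 := by
    apply hgap
    intro i hi j h1 h2
    rw [Finset.mem_filter] at hi ⊢
    exact ⟨hS i hi.1 j h1 h2, by rw [← hi.2]; exact (hw i j h1 h2).symm⟩
  rw [← h1, Finset.sum_filter]
  apply Finset.sum_congr rfl
  intro i _
  rw [coeff_C_mul_X_pow]
  by_cases hn : w i = n
  · rw [if_pos hn, if_pos hn.symm]
  · rw [if_neg hn, if_neg (fun h => hn h.symm)]

variable {k₁ k₂ l m : ℕ}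

/-- the terms -/
def term {R : Type*} [CommRing R] (T₁ : Fin k₁ → R) (T₂ : Fin k₂ → R) (D : Fin l → R)
    (V : Fin m → R) : Idx k₁ k₂ l m → R
  | .inl p => T₁ p.1 * T₂ p.2
  | .inr p => -(D p.1 * V p.2)

theorem sum_term {R : Type*} [CommRing R] (T₁ : Fin k₁ → R) (T₂ : Fin k₂ → R) (D : Fin l → R)
    (V : Fin m → R) : ∑ i, term T₁ T₂ D V i = (∑ i, T₁ i) * (∑ i, T₂ i) - (∑ j, D j) * ∑ e, V e := by
  rw [Fintype.sum_sum_type, Fintype.sum_prod_type, Fintype.sum_prod_type, Finset.sum_mul_sum,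
    Finset.sum_mul_sum, sub_eq_add_neg]
  simp only [term, Finset.sum_neg_distrib]

/-- The identity of the weighted terms. -/
theorem weighted {R : Type*} [CommRing R] (T₁ : Fin k₁ → R) (T₂ : Fin k₂ → R) (D : Fin l → R)
    (V : Fin m → R) (e₁ : Fin m) (z₁ : Fin k₁ → ℕ) (z₂ : Fin k₂ → ℕ) (zq : Fin l → ℕ)
    (s sq Y : ℕ) (i : Idx k₁ k₂ l m) :
    (C (term T₁ T₂ D V i) * X ^ wt e₁ z₁ z₂ zq s sq Y i : R[X]) =
      term (fun i => X ^ sq * (C (T₁ i) * X ^ z₁ i)) (fun i => C (T₂ i) * X ^ z₂ i)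
        (fun j => X ^ s * (C (D j) * X ^ zq j)) (fun e => C (V e) * X ^ (if e = e₁ then Y else 0))
        i := by
  rcases i with q | q
  · simp only [term, wt, pow_add, C_mul]
    ring
  · simp only [term, wt, pow_add, C_mul, C_neg]
    ring

/-- **The deformation principle in two variables.** -/
theorem deform_two (T₁ : Fin k₁ → ℤ) (T₂ : Fin k₂ → ℤ) (D : Fin l → ℤ) (V : Fin m → ℤ)
    (α₁ : Fin k₁ → ℤ) (α₂ : Fin k₂ → ℤ) (β : Fin l → ℤ) (A : Fin m → ℤ) (e₁ e₂ : Fin m) (h : ℕ)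
    (hgap : ∀ S : Finset (Idx k₁ k₂ l m), Closed (expo α₁ α₂ β A) h S →
      ∑ i ∈ S, term T₁ T₂ D V i = 0)
    (hgen₁ : Gen A e₁ ((k₁ + k₂ + l + 1) * 2 ^ (k₁ + k₂ + l + 1))
      ((k₁ + k₂ + l + 1) * 2 ^ (k₁ + k₂ + l) * h))
    (hgen₂ : Gen A e₂ ((k₁ + k₂ + l + 1) * 2 ^ (k₁ + k₂ + l + 1))
      ((k₁ + k₂ + l + 1) * 2 ^ (k₁ + k₂ + l) * h)) :
    ∃ (z₁ z₁' : Fin k₁ → ℕ) (z₂ z₂' : Fin k₂ → ℕ) (Q : ℤ[X][X]) (s s' Y₁ Y₂ : ℕ),
      1 ≤ Y₁ ∧ 1 ≤ Y₂ ∧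
      X ^ s * (C X ^ s' * ((∑ i, C (C (T₁ i) * X ^ z₁' i) * X ^ z₁ i) *
        (∑ i, C (C (T₂ i) * X ^ z₂' i) * X ^ z₂ i))) =
      Q * ∑ e, C (C (V e) * X ^ (if e = e₂ then Y₂ else 0)) * X ^ (if e = e₁ then Y₁ else 0) := by
  classical
  obtain ⟨z₁, z₂, zq, s, sq, Y₁, hY₁, hw⟩ := exists_weights α₁ α₂ β A e₁ h hgen₁
  obtain ⟨z₁', z₂', zq', s', sq', Y₂, hY₂, hw'⟩ := exists_weights α₁ α₂ β A e₂ h hgen₂
  have h1 : ∀ S : Finset (Idx k₁ k₂ l m), Closed (expo α₁ α₂ β A) h S →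
      ∑ i ∈ S, term (fun i => X ^ sq' * (C (T₁ i) * X ^ z₁' i)) (fun i => C (T₂ i) * X ^ z₂' i)
        (fun j => X ^ s' * (C (D j) * X ^ zq' j))
        (fun e => C (V e) * X ^ (if e = e₂ then Y₂ else 0)) i = 0 := by
    intro S hS
    rw [← closed_lift hgap hw' S hS]
    apply Finset.sum_congr rfl
    intro i _
    rw [weighted]
  have h2 := closed_lift h1 hw Finset.univ (fun _ _ j _ _ => Finset.mem_univ j)
  rw [Finset.sum_congr rfl (fun i _ => weighted _ _ _ _ e₁ z₁ z₂ zq s sq Y₁ i), sum_term,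
    sub_eq_zero] at h2
  refine ⟨z₁, z₁', z₂, z₂', ∑ j, X ^ s * (C (X ^ s' * (C (D j) * X ^ zq' j)) * X ^ zq j), sq, sq',
    Y₁, Y₂, hY₁, hY₂, ?_⟩
  rw [← h2, ← Finset.mul_sum, ← mul_assoc (C X ^ sq'), ← mul_assoc (X ^ sq)]
  congr 1
  rw [Finset.mul_sum, Finset.mul_sum, Finset.mul_sum]
  apply Finset.sum_congr rfl
  intro i _
  simp only [C_mul, C_pow]
  ring

/-- **Euclid's lemma.** -/
theorem euclid {b : ℤ} (hb : 1 < b) (x₁ : Fin k₁ → ℤ) (α₁ : Fin k₁ → ℕ) (x₂ : Fin k₂ → ℤ)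
    (α₂ : Fin k₂ → ℕ) (q : Fin l → ℤ) (β : Fin l → ℕ) (c : Fin m → ℤ) (A : Fin m → ℕ)
    (e₁ e₂ : Fin m) (he : e₁ ≠ e₂) (hc₁ : c e₁ ≠ 0) (hc₂ : c e₂ ≠ 0)
    (hv₀ : ∑ e ∈ (univ.erase e₁).erase e₂, c e * b ^ A e ≠ 0)
    (hcop : IsCoprime (∑ e ∈ (univ.erase e₁).erase e₂, c e * b ^ A e) (c e₂ * b ^ A e₂))
    (heq : (∑ i, x₁ i * b ^ α₁ i) * (∑ i, x₂ i * b ^ α₂ i) =
      (∑ j, q j * b ^ β j) * ∑ e, c e * b ^ A e)
    (H : ℕ) (hH : (∑ i, |x₁ i|) * (∑ i, |x₂ i|) + (∑ j, |q j|) * (∑ e, |c e|) < b ^ (H + 1))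
    (hgen₁ : Gen (fun e => (A e : ℤ)) e₁ ((k₁ + k₂ + l + 1) * 2 ^ (k₁ + k₂ + l + 1))
      ((k₁ + k₂ + l + 1) * 2 ^ (k₁ + k₂ + l) * H))
    (hgen₂ : Gen (fun e => (A e : ℤ)) e₂ ((k₁ + k₂ + l + 1) * 2 ^ (k₁ + k₂ + l + 1))
      ((k₁ + k₂ + l + 1) * 2 ^ (k₁ + k₂ + l) * H)) :
    (∑ e, c e * b ^ A e ∣ ∑ i, x₁ i * b ^ α₁ i) ∨ (∑ e, c e * b ^ A e ∣ ∑ i, x₂ i * b ^ α₂ i) := by
  classical
  have hb0 : b ≠ 0 := by omega
  let E : Idx k₁ k₂ l m → ℤ :=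
    expo (fun i => (α₁ i : ℤ)) (fun i => (α₂ i : ℤ)) (fun j => (β j : ℤ)) (fun e => (A e : ℤ))
  have hE : ∀ i, 0 ≤ E i := by
    intro i
    rcases i with i | i <;> simp only [E, expo] <;> positivity
  have hm : ∀ i, E i ≤ ∑ j, E j := fun i =>
    Finset.single_le_sum (f := E) (fun j _ => hE j) (Finset.mem_univ i)
  have hterm : ∀ i : Idx k₁ k₂ l m, term (fun i => x₁ i * b ^ α₁ i) (fun i => x₂ i * b ^ α₂ i)
      (fun j => q j * b ^ β j) (fun e => c e * b ^ A e) i =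
      term x₁ x₂ q c i * (b ^ (E i).toNat * 1 ^ (∑ j, E j - E i).toNat) := by
    intro i
    rcases i with i | i
    · simp only [term, E, expo]
      rw [← Nat.cast_add, Int.toNat_natCast, pow_add]
      ring
    · simp only [term, E, expo]
      rw [← Nat.cast_add, Int.toNat_natCast, pow_add]
      ring
  have habs : ∑ i : Idx k₁ k₂ l m, |term x₁ x₂ q c i| =
      (∑ i, |x₁ i|) * (∑ i, |x₂ i|) + (∑ j, |q j|) * (∑ e, |c e|) := by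
    rw [Fintype.sum_sum_type, Fintype.sum_prod_type, Fintype.sum_prod_type, Finset.sum_mul_sum,
      Finset.sum_mul_sum]
    simp only [term, abs_neg, abs_mul]
  have hgap : ∀ S : Finset (Idx k₁ k₂ l m), Closed E H S →
      ∑ i ∈ S, term (fun i => x₁ i * b ^ α₁ i) (fun i => x₂ i * b ^ α₂ i)
        (fun j => q j * b ^ β j) (fun e => c e * b ^ A e) i = 0 := by
    intro S hS
    simp only [hterm]
    apply Q217.SG.closed_pair hb isCoprime_one_right (by rw [abs_one]; omega)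
      (m := ∑ j, E j) Finset.univ (fun i _ => ⟨hE i, hm i⟩) (h := H)
    · rw [habs]; exact hH
    · simp only [← hterm]
      rw [sum_term, heq, sub_self]
    · exact Finset.subset_univ _
    · intro i hi j _ h1 h2
      exact hS i hi j h1 h2
  obtain ⟨z₁, z₁', z₂, z₂', Q, s, s', Y₁, Y₂, hY₁, hY₂, hid⟩ := deform_two
    (fun i => x₁ i * b ^ α₁ i) (fun i => x₂ i * b ^ α₂ i)
    (fun j => q j * b ^ β j) (fun e => c e * b ^ A e) (fun i => (α₁ i : ℤ)) (fun i => (α₂ i : ℤ))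
    (fun j => (β j : ℤ)) (fun e => (A e : ℤ)) e₁ e₂ H hgap hgen₁ hgen₂
  obtain ⟨v₀, hv₀'⟩ : ∃ v₀, v₀ = ∑ e ∈ (univ.erase e₁).erase e₂, c e * b ^ A e := ⟨_, rfl⟩
  rw [← hv₀'] at hv₀ hcop
  have hmem : e₂ ∈ univ.erase e₁ := Finset.mem_erase.2 ⟨he.symm, Finset.mem_univ _⟩
  have hlast : ∑ e, (C (C (c e * b ^ A e) * X ^ (if e = e₂ then Y₂ else 0)) *
      X ^ (if e = e₁ then Y₁ else 0) : ℤ[X][X]) =
      C (C (c e₁ * b ^ A e₁)) * X ^ Y₁ + C (C (c e₂ * b ^ A e₂) * X ^ Y₂ + C v₀) := by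
    rw [← Finset.add_sum_erase _ _ (Finset.mem_univ e₁), ← Finset.add_sum_erase _ _ hmem,
      if_neg he, if_pos rfl, if_pos rfl, if_neg he.symm, hv₀']
    simp only [pow_zero, mul_one, C_add, map_sum]
    congr 2
    apply Finset.sum_congr rfl
    intro e he
    rw [Finset.mem_erase, Finset.mem_erase] at he
    rw [if_neg he.1, if_neg he.2.1]
    simp
  have hsum : ∑ e, c e * b ^ A e = c e₁ * b ^ A e₁ + c e₂ * b ^ A e₂ + v₀ := by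
    rw [← Finset.add_sum_erase _ _ (Finset.mem_univ e₁), ← Finset.add_sum_erase _ _ hmem, hv₀']
    ring
  have h₁ : c e₁ * b ^ A e₁ ≠ 0 := mul_ne_zero hc₁ (pow_ne_zero _ hb0)
  have h₂ : c e₂ * b ^ A e₂ ≠ 0 := mul_ne_zero hc₂ (pow_ne_zero _ hb0)
  have hp := prime_tri hv₀ h₁ h₂ hcop hY₁ hY₂
  rw [hlast] at hid
  have hdvd : (C (C (c e₁ * b ^ A e₁)) * X ^ Y₁ + C (C (c e₂ * b ^ A e₂) * X ^ Y₂ + C v₀) :
      ℤ[X][X]) ∣ X ^ s * (C X ^ s' * ((∑ i, C (C (x₁ i * b ^ α₁ i) * X ^ z₁' i) * X ^ z₁ i) *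
        (∑ i, C (C (x₂ i * b ^ α₂ i) * X ^ z₂' i) * X ^ z₂ i))) := by
    rw [hid]
    exact dvd_mul_left _ _
  have hev : ∀ {k : ℕ} (x : Fin k → ℤ) (α z z' : Fin k → ℕ),
      (C (C (c e₁ * b ^ A e₁)) * X ^ Y₁ + C (C (c e₂ * b ^ A e₂) * X ^ Y₂ + C v₀) : ℤ[X][X]) ∣
        ∑ i, C (C (x i * b ^ α i) * X ^ z' i) * X ^ z i →
      ∑ e, c e * b ^ A e ∣ ∑ i, x i * b ^ α i := by
    intro k x α z z' hd
    have h3 := map_dvd ((evalRingHom (1 : ℤ)).comp (evalRingHom (1 : ℤ[X]))) hd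
    simp only [RingHom.coe_comp, Function.comp_apply, coe_evalRingHom] at h3
    rw [eval_tri, ← hsum] at h3
    simpa [eval_finsetSum] using h3
  rcases hp.dvd_or_dvd hdvd with h3 | h3
  · exact absurd (hp.dvd_of_dvd_pow h3) (not_dvd_X hv₀ h₁ h₂ hcop hY₁ hY₂)
  rcases hp.dvd_or_dvd h3 with h3 | h3
  · exact absurd (hp.dvd_of_dvd_pow h3) (not_dvd_C h₁ Y₂ hY₁ X_ne_zero)
  rcases hp.dvd_or_dvd h3 with h3 | h3
  · exact Or.inl (hev x₁ α₁ z₁ z₁' h3)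
  · exact Or.inr (hev x₂ α₂ z₂ z₂' h3)

end Q217.TG
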