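import Pool.Agent.Q217.TG.Euclid
import Pool.Agent.Q217.TG.Count

/-!
# Euclid's lemma for `b ^ s + b ^ t + 1`, `s`, `t` in general position
-/

set_option autoImplicit false

namespace Q217.TG

open Finset

variable {k₁ k₂ l : ℕ}

theorem PairGen.mono {B T B' T' s t : ℕ} (h : PairGen B T s t) (hB : B' ≤ B) (hT : T' ≤ T) :
    PairGen B' T' s t := by
  intro c d hc hd h0
  have h1 := h c d (hc.trans (by exact_mod_cast hB)) (hd.trans (by exact_mod_cast hB)) h0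
  have h2 : (T' : ℤ) ≤ T := by exact_mod_cast hT
  omega

theorem euclid_pair {b : ℤ} (hb : 1 < b) (x₁ : Fin k₁ → ℤ) (α₁ : Fin k₁ → ℕ) (x₂ : Fin k₂ → ℤ)
    (α₂ : Fin k₂ → ℕ) (q : Fin l → ℤ) (β : Fin l → ℕ) (s t : ℕ)
    (heq : (∑ i, x₁ i * b ^ α₁ i) * (∑ i, x₂ i * b ^ α₂ i) =
      (∑ j, q j * b ^ β j) * (b ^ s + b ^ t + 1))
    (H : ℕ) (hH : (∑ i, |x₁ i|) * (∑ i, |x₂ i|) + (∑ j, |q j|) * 3 < b ^ (H + 1))
    (hgen : PairGen ((k₁ + k₂ + l + 1) * 2 ^ (k₁ + k₂ + l + 1))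
      ((k₁ + k₂ + l + 1) * 2 ^ (k₁ + k₂ + l) * H) s t) :
    (b ^ s + b ^ t + 1 ∣ ∑ i, x₁ i * b ^ α₁ i) ∨ (b ^ s + b ^ t + 1 ∣ ∑ i, x₂ i * b ^ α₂ i) := by
  have hN : ∑ e : Fin 3, (fun _ => (1 : ℤ)) e * b ^ (![s, t, 0] : Fin 3 → ℕ) e =
      b ^ s + b ^ t + 1 := by
    rw [Fin.sum_univ_three]
    simp
  have hset : ((univ : Finset (Fin 3)).erase 0).erase 1 = {2} := by decide
  have hG : ∀ e : Fin 3, e ≠ 2 → Gen (fun e => ((![s, t, 0] : Fin 3 → ℕ) e : ℤ)) e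
      ((k₁ + k₂ + l + 1) * 2 ^ (k₁ + k₂ + l + 1)) ((k₁ + k₂ + l + 1) * 2 ^ (k₁ + k₂ + l) * H) := by
    intro e he c hc hc0
    have h1 := hgen (c 0) (c 1) (hc 0) (hc 1) (by
      fin_cases e
      · exact Or.inl hc0
      · exact Or.inr hc0
      · exact absurd rfl he)
    rw [Fin.sum_univ_three]
    simpa using h1
  have key := euclid (m := 3) hb x₁ α₁ x₂ α₂ q β (fun _ => 1) ![s, t, 0] 0 1 (by decide)
    one_ne_zero one_ne_zero (by rw [hset]; simp) (by rw [hset]; simp [isCoprime_one_left])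
    (by rw [hN]; exact heq) H (by simpa using hH) (hG 0 (by decide)) (hG 1 (by decide))
  rw [hN] at key
  exact key

/-! ### Numerical estimates -/

theorem params {n K m : ℕ} (hx : 200 ≤ Real.log n) (hK : (K : ℝ) ≤ Real.log n / 50)
    (hm : (m : ℝ) ≤ (n : ℝ) ^ ((1 : ℝ) / 50)) :
    (K + 1) * 2 ^ (K + 1) ≤ ⌊(n : ℝ) ^ ((1 : ℝ) / 20)⌋₊ ∧
    (K + 1) * 2 ^ K * (2 * K + 2 * m + 1) ≤ ⌊(n : ℝ) ^ ((1 : ℝ) / 10)⌋₊ := by
  have hn : (0 : ℝ) < n := by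
    rcases Nat.eq_zero_or_pos n with h | h
    · rw [h] at hx; simp at hx; linarith
    · exact_mod_cast h
  obtain ⟨x, hxd⟩ : ∃ x, x = Real.log n := ⟨_, rfl⟩
  rw [← hxd] at hx hK
  rw [Real.rpow_def_of_pos hn, ← hxd] at hm ⊢
  rw [Real.rpow_def_of_pos hn, ← hxd]
  have hK1 : ((K : ℝ) + 1) ≤ Real.exp (x / 50) :=
    (Real.add_one_le_exp _).trans (Real.exp_le_exp.2 hK)
  have hl2 : Real.log 2 ≤ 0.7 := Real.log_two_lt_d9.le.trans (by norm_num)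
  have h2K : (2 : ℝ) ^ (K + 1) ≤ Real.exp (0.7 * (x / 50 + 1)) := by
    rw [← Real.exp_log (show (0 : ℝ) < 2 ^ (K + 1) by positivity), Real.log_pow]
    apply Real.exp_le_exp.2
    push_cast
    have : (0 : ℝ) ≤ Real.log 2 := Real.log_nonneg (by norm_num)
    nlinarith
  have hprod : ((K : ℝ) + 1) * 2 ^ (K + 1) ≤ Real.exp (0.034 * x + 0.7) := by
    calc ((K : ℝ) + 1) * 2 ^ (K + 1) ≤ Real.exp (x / 50) * Real.exp (0.7 * (x / 50 + 1)) :=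
          mul_le_mul hK1 h2K (by positivity) (Real.exp_pos _).le
      _ = _ := by
          rw [← Real.exp_add]
          congr 1
          ring
  constructor
  · apply Nat.le_floor
    push_cast
    refine hprod.trans (Real.exp_le_exp.2 ?_)
    linarith
  · apply Nat.le_floor
    push_cast
    have h1 : ((K : ℝ) + 1) * 2 ^ K ≤ Real.exp (0.034 * x + 0.7) := by
      refine le_trans ?_ hprod
      apply mul_le_mul_of_nonneg_left _ (by positivity)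
      exact pow_le_pow_right₀ (by norm_num) (Nat.le_succ _)
    have h3 : (x * (1 / 50)) = x / 50 := by ring
    rw [h3] at hm
    have h4 : (1 : ℝ) ≤ Real.exp (x / 50) := Real.one_le_exp (by linarith)
    have h5 : (5 : ℝ) ≤ Real.exp 2 := by
      have : Real.exp 2 = Real.exp 1 * Real.exp 1 := by rw [← Real.exp_add]; norm_num
      rw [this]
      nlinarith [Real.exp_one_gt_d9]
    have h6 : 2 * (K : ℝ) + 2 * m + 1 ≤ Real.exp (x / 50 + 2) := by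
      rw [Real.exp_add]
      nlinarith
    calc ((K : ℝ) + 1) * 2 ^ K * (2 * K + 2 * m + 1)
        ≤ Real.exp (0.034 * x + 0.7) * Real.exp (x / 50 + 2) :=
          mul_le_mul h1 h6 (by positivity) (Real.exp_pos _).le
      _ = Real.exp (0.034 * x + 0.7 + (x / 50 + 2)) := (Real.exp_add _ _).symm
      _ ≤ _ := by
          apply Real.exp_le_exp.2
          linarith

theorem count_le {n : ℕ} (hx : 200 ≤ Real.log n) :
    (((2 * ⌊(n : ℝ) ^ ((1 : ℝ) / 20)⌋₊ + 1) ^ 2 *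
      ((Nat.sqrt (2 * n) + 1) * (2 * ⌊(n : ℝ) ^ ((1 : ℝ) / 10)⌋₊ + 1)) : ℕ) : ℝ) ≤
      (n : ℝ) ^ ((3 : ℝ) / 4) := by
  have hn : (0 : ℝ) < n := by
    rcases Nat.eq_zero_or_pos n with h | h
    · rw [h] at hx; simp at hx; linarith
    · exact_mod_cast h
  obtain ⟨r, hr⟩ : ∃ r, r = (n : ℝ) ^ ((1 : ℝ) / 20) := ⟨_, rfl⟩
  have hr0 : 0 < r := by rw [hr]; positivity
  have hr81 : 81 ≤ r := by
    rw [hr, Real.rpow_def_of_pos hn]
    have h1 : Real.exp 5 ≤ Real.exp (Real.log n * (1 / 20)) := Real.exp_le_exp.2 (by linarith)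
    refine le_trans ?_ h1
    have : Real.exp 5 = Real.exp 1 ^ 5 := by
      rw [← Real.exp_nat_mul]; norm_num
    rw [this]
    have h2 : (2.7 : ℝ) ≤ Real.exp 1 := by linarith [Real.exp_one_gt_d9]
    calc (81 : ℝ) ≤ 2.7 ^ 5 := by norm_num
      _ ≤ _ := pow_le_pow_left₀ (by norm_num) h2 5
  have hr2 : (n : ℝ) ^ ((1 : ℝ) / 10) = r ^ 2 := by
    rw [hr, ← Real.rpow_natCast, ← Real.rpow_mul hn.le]
    norm_num
  have hr15 : (n : ℝ) ^ ((3 : ℝ) / 4) = r ^ 15 := by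
    rw [hr, ← Real.rpow_natCast, ← Real.rpow_mul hn.le]
    norm_num
  have hr20 : (n : ℝ) = r ^ 20 := by
    rw [hr, ← Real.rpow_natCast, ← Real.rpow_mul hn.le]
    norm_num
  have hB : (⌊r⌋₊ : ℝ) ≤ r := Nat.floor_le hr0.le
  have hT : (⌊r ^ 2⌋₊ : ℝ) ≤ r ^ 2 := Nat.floor_le (by positivity)
  have hS : (Nat.sqrt (2 * n) : ℝ) ≤ 2 * r ^ 10 := by
    have h1 : (Nat.sqrt (2 * n) : ℝ) ^ 2 ≤ (2 * r ^ 10) ^ 2 := by
      have h2 := Nat.sqrt_le' (2 * n)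
      have h3 : ((Nat.sqrt (2 * n) ^ 2 : ℕ) : ℝ) ≤ ((2 * n : ℕ) : ℝ) := by exact_mod_cast h2
      push_cast at h3
      refine h3.trans ?_
      rw [hr20]
      have : 0 < r ^ 20 := by positivity
      nlinarith
    exact (pow_le_pow_iff_left₀ (by positivity) (by positivity) two_ne_zero).1 h1
  rw [hr2, hr15, ← hr]
  push_cast
  have h1 : (2 * (⌊r⌋₊ : ℝ) + 1) ^ 2 ≤ (3 * r) ^ 2 := by
    apply pow_le_pow_left₀ (by positivity)
    linarith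
  have h10 : (1 : ℝ) ≤ r ^ 10 := one_le_pow₀ (by linarith)
  have h2 : (Nat.sqrt (2 * n) : ℝ) + 1 ≤ 3 * r ^ 10 := by linarith
  have h3 : 2 * (⌊r ^ 2⌋₊ : ℝ) + 1 ≤ 3 * r ^ 2 := by nlinarith
  calc (2 * (⌊r⌋₊ : ℝ) + 1) ^ 2 * (((Nat.sqrt (2 * n) : ℝ) + 1) * (2 * (⌊r ^ 2⌋₊ : ℝ) + 1))
      ≤ (3 * r) ^ 2 * ((3 * r ^ 10) * (3 * r ^ 2)) := by
        apply mul_le_mul h1 _ (by positivity) (by positivity)
        exact mul_le_mul h2 h3 (by positivity) (by positivity)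
    _ = 81 * r ^ 14 := by ring
    _ ≤ r * r ^ 14 := mul_le_mul_of_nonneg_right hr81 (by positivity)
    _ = _ := by ring

end Q217.TG
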