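import Pool.Agent.Helper353.SF.P_sol_card
import Pool.Agent.H510R2.Div

/-!
# Representations by `X ^ 2 + g W ^ 2` and points of a plane on an ellipsoid
-/

set_option autoImplicit false

namespace Q217.TG

open Finset

theorem repr_nat (g K : ℕ) (hg : 0 < g) (hK : 0 < K) (F : Finset (ℕ × ℕ))
    (hF : ∀ p ∈ F, p.1 ^ 2 + g * p.2 ^ 2 = K) : F.card ≤ 5 * K.divisors.card ^ 2 + 2 := by
  classical
  obtain ⟨s, r, hsr, hs⟩ := Nat.sq_mul_squarefree g
  have hr : 0 < r := by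
    rcases Nat.eq_zero_or_pos r with h | h
    · rw [h] at hsr; simp at hsr; omega
    · exact h
  have h1 := SF.sol_card s K hs hK
  have h2 : F ⊆ F.filter (fun p => 0 < p.1 ∧ 0 < p.2) ∪ {(0, Nat.sqrt (K / g)), (Nat.sqrt K, 0)} := by
    rintro ⟨a, b⟩ hp
    have h3 := hF (a, b) hp
    dsimp only at h3
    rw [mem_union, mem_filter]
    rcases Nat.eq_zero_or_pos a with ha | ha
    · right
      subst ha
      have : b = Nat.sqrt (K / g) := by
        have h4 : K / g = b ^ 2 := by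
          rw [← h3, zero_pow two_ne_zero, zero_add, Nat.mul_div_cancel_left _ hg]
        rw [h4, Nat.sqrt_eq']
      simp [this]
    rcases Nat.eq_zero_or_pos b with hb | hb
    · right
      subst hb
      have : a = Nat.sqrt K := by
        rw [← h3]
        simp [Nat.sqrt_eq']
      simp [this]
    · left
      exact ⟨hp, ha, hb⟩
  have h3 : (F.filter (fun p => 0 < p.1 ∧ 0 < p.2)).card ≤ (SF.Sol s K).card := by
    apply Finset.card_le_card_of_injOn (fun p : ℕ × ℕ => (p.1, r * p.2))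
    · rintro ⟨a, b⟩ hp
      obtain ⟨hp1, ha, hb⟩ := Finset.mem_filter.1 hp
      have h3 := hF (a, b) hp1
      dsimp only at h3 ha hb
      have h4 : a ^ 2 + s * (r * b) ^ 2 = K := by
        rw [← h3, ← hsr]; ring
      have h5 : 0 < r * b := Nat.mul_pos hr hb
      have h6 : a ≤ a ^ 2 := Nat.le_self_pow (by norm_num) _
      have hs0 : 0 < s := Nat.pos_of_ne_zero hs.ne_zero
      have h7 : r * b ≤ (r * b) ^ 2 := Nat.le_self_pow (by norm_num) _
      have h8 : (r * b) ^ 2 ≤ s * (r * b) ^ 2 := Nat.le_mul_of_pos_left _ hs0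
      simp only [SF.Sol, Finset.coe_filter, Finset.mem_product, Finset.mem_range]
      exact ⟨⟨by omega, by omega⟩, ha, h5, h4⟩
    · rintro ⟨a, b⟩ - ⟨a', b'⟩ - heq
      simp only [Prod.mk.injEq] at heq
      obtain ⟨h4, h5⟩ := heq
      rw [h4, Nat.eq_of_mul_eq_mul_left hr h5]
  refine (card_le_card h2).trans ((card_union_le _ _).trans ?_)
  have h4 : ({(0, Nat.sqrt (K / g)), (Nat.sqrt K, 0)} : Finset (ℕ × ℕ)).card ≤ 2 := card_le_two
  omega

theorem repr_int (g K : ℕ) (hg : 0 < g) (hK : 0 < K) (F : Finset (ℤ × ℤ))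
    (hF : ∀ p ∈ F, p.1 ^ 2 + g * p.2 ^ 2 = K) : F.card ≤ 4 * (5 * K.divisors.card ^ 2 + 2) := by
  classical
  obtain ⟨G, hG⟩ : ∃ G : Finset (ℕ × ℕ), G = F.image (fun p => (p.1.natAbs, p.2.natAbs)) := ⟨_, rfl⟩
  have h1 : G.card ≤ 5 * K.divisors.card ^ 2 + 2 := by
    refine repr_nat g K hg hK G (fun p hp => ?_)
    rw [hG, mem_image] at hp
    obtain ⟨q, hq, rfl⟩ := hp
    have h2 := hF q hq
    have h3 : ((q.1.natAbs : ℤ)) ^ 2 + g * ((q.2.natAbs : ℤ)) ^ 2 = K := by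
      rw [Int.natAbs_sq, Int.natAbs_sq]
      exact h2
    exact_mod_cast h3
  have h2 : F.card ≤ (G ×ˢ ((univ : Finset Bool) ×ˢ (univ : Finset Bool))).card := by
    refine card_le_card_of_injOn (fun p => ((p.1.natAbs, p.2.natAbs), decide (0 ≤ p.1), decide (0 ≤ p.2)))
      (fun p hp => ?_) (fun p _ q _ hpq => ?_)
    · simp only [coe_product, Set.mem_prod, mem_coe, mem_univ, and_true]
      rw [hG]
      exact mem_image_of_mem (fun p : ℤ × ℤ => (p.1.natAbs, p.2.natAbs)) hp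
    · simp only [Prod.mk.injEq, decide_eq_decide] at hpq
      obtain ⟨⟨h3, h4⟩, h5, h6⟩ := hpq
      refine Prod.ext ?_ ?_ <;> omega
  rw [card_product, card_product, card_univ, Fintype.card_bool] at h2
  omega

/-- points with `a x + b y = u`, `x ^ 2 + y ^ 2 + 4 w ^ 2 = m` -/
theorem plane_card (a b u m : ℤ) (ha : a ≠ 0) (F : Finset (ℤ × ℤ × ℤ))
    (hF : ∀ p ∈ F, a * p.1 + b * p.2.1 = u ∧ p.1 ^ 2 + p.2.1 ^ 2 + 4 * p.2.2 ^ 2 = m) :
    F.card ≤ 4 * (5 * (a ^ 2 * ((a ^ 2 + b ^ 2) * m - u ^ 2)).natAbs.divisors.card ^ 2 + 2) := by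
  classical
  obtain ⟨K, hK⟩ : ∃ K : ℤ, K = a ^ 2 * ((a ^ 2 + b ^ 2) * m - u ^ 2) := ⟨_, rfl⟩
  obtain ⟨g, hg⟩ : ∃ g : ℤ, g = a ^ 2 + b ^ 2 := ⟨_, rfl⟩
  have ha2 : 0 < a ^ 2 := by positivity
  have hg0 : 0 < g := by
    rw [hg]
    have : 0 ≤ b ^ 2 := sq_nonneg b
    linarith
  rw [← hK]
  let f : ℤ × ℤ × ℤ → ℤ × ℤ := fun p => (g * p.2.1 - u * b, 2 * a * p.2.2)
  have hinj : Set.InjOn f (F : Set (ℤ × ℤ × ℤ)) := by
    rintro ⟨x, y, w⟩ hp ⟨x', y', w'⟩ hp' heq
    simp only [f, Prod.mk.injEq] at heq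
    obtain ⟨h1, h2⟩ := heq
    have hy : y = y' := mul_left_cancel₀ hg0.ne' (by linarith : g * y = g * y')
    have hw : w = w' := mul_left_cancel₀ (mul_ne_zero two_ne_zero ha) h2
    have h3 := (hF _ hp).1
    have h4 := (hF _ hp').1
    dsimp only at h3 h4
    have hx : x = x' := by
      apply mul_left_cancel₀ ha
      rw [hy] at h3
      linarith
    rw [hx, hy, hw]
  have hval : ∀ p ∈ F, (f p).1 ^ 2 + g * (f p).2 ^ 2 = K := by
    rintro ⟨x, y, w⟩ hp
    obtain ⟨h1, h2⟩ := hF _ hp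
    dsimp only at h1 h2
    simp only [f]
    rw [hK, ← h1, ← h2, hg]
    ring
  rw [← card_image_of_injOn hinj]
  rcases lt_trichotomy K 0 with hneg | hzero | hpos
  · have : F.image f = ∅ := by
      apply Finset.eq_empty_of_forall_notMem
      intro q hq
      obtain ⟨p, hp, rfl⟩ := mem_image.1 hq
      have h1 := hval p hp
      nlinarith [sq_nonneg (f p).1, mul_nonneg hg0.le (sq_nonneg (f p).2)]
    rw [this]
    simp
  · have : F.image f ⊆ {(0, 0)} := by
      intro q hq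
      obtain ⟨p, hp, rfl⟩ := mem_image.1 hq
      have h1 := hval p hp
      rw [hzero] at h1
      have h2 : (f p).1 ^ 2 = 0 := by
        nlinarith [sq_nonneg (f p).1, mul_nonneg hg0.le (sq_nonneg (f p).2)]
      have h3 : (f p).2 ^ 2 = 0 := by
        have : g * (f p).2 ^ 2 = 0 := by linarith
        rcases mul_eq_zero.1 this with h | h
        · omega
        · exact h
      rw [mem_singleton]
      exact Prod.ext (pow_eq_zero_iff two_ne_zero |>.1 h2) (pow_eq_zero_iff two_ne_zero |>.1 h3)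
    have h1 := card_le_card this
    rw [card_singleton] at h1
    omega
  · have e1 : ((K.natAbs : ℕ) : ℤ) = K := Int.natAbs_of_nonneg hpos.le
    have e2 : ((g.natAbs : ℕ) : ℤ) = g := Int.natAbs_of_nonneg hg0.le
    apply repr_int g.natAbs K.natAbs (by omega) (by omega)
    intro q hq
    obtain ⟨p, hp, rfl⟩ := mem_image.1 hq
    rw [e1, e2]
    exact hval p hp

end Q217.TG
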