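import Pool.Agent.Q217.TG.Values
import Pool.Agent.Q217.TG.CountThree

/-!
# Euclid's lemma for `2 ^ x + 2 ^ y + 2 ^ z + 1`, `x`, `y`, `z` in general position
-/

set_option autoImplicit false

namespace Q217.TG

open Finset Filter

variable {k₁ k₂ l : ℕ}

theorem TripleGen.mono {B T B' T' x y z : ℕ} (h : TripleGen B T x y z) (hB : B' ≤ B)
    (hT : T' ≤ T) : TripleGen B' T' x y z := by
  intro a b c ha hb hc h0
  have h1 := h a b c (ha.trans (by exact_mod_cast hB)) (hb.trans (by exact_mod_cast hB))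
    (hc.trans (by exact_mod_cast hB)) h0
  have h2 : (T' : ℤ) ≤ T := by exact_mod_cast hT
  omega

theorem euclid_triple (x₁ : Fin k₁ → ℤ) (α₁ : Fin k₁ → ℕ) (x₂ : Fin k₂ → ℤ)
    (α₂ : Fin k₂ → ℕ) (q : Fin l → ℤ) (β : Fin l → ℕ) (x y z : ℕ)
    (heq : (∑ i, x₁ i * 2 ^ α₁ i) * (∑ i, x₂ i * 2 ^ α₂ i) =
      (∑ j, q j * 2 ^ β j) * (2 ^ x + 2 ^ y + 2 ^ z + 1))
    (H : ℕ) (hH : (∑ i, |x₁ i|) * (∑ i, |x₂ i|) + (∑ j, |q j|) * 4 < 2 ^ (H + 1))
    (hgen : TripleGen ((k₁ + k₂ + l + 1) * 2 ^ (k₁ + k₂ + l + 1))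
      ((k₁ + k₂ + l + 1) * 2 ^ (k₁ + k₂ + l) * H) x y z) :
    ((2 : ℤ) ^ x + 2 ^ y + 2 ^ z + 1 ∣ ∑ i, x₁ i * 2 ^ α₁ i) ∨
      ((2 : ℤ) ^ x + 2 ^ y + 2 ^ z + 1 ∣ ∑ i, x₂ i * 2 ^ α₂ i) := by
  have hN : ∑ e : Fin 4, (fun _ => (1 : ℤ)) e * 2 ^ (![x, y, z, 0] : Fin 4 → ℕ) e =
      2 ^ x + 2 ^ y + 2 ^ z + 1 := by
    rw [Fin.sum_univ_four]
    simp
  have hset : ((univ : Finset (Fin 4)).erase 0).erase 1 = {2, 3} := by decide
  have hG : ∀ e : Fin 4, e ≠ 3 → Gen (fun e => ((![x, y, z, 0] : Fin 4 → ℕ) e : ℤ)) e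
      ((k₁ + k₂ + l + 1) * 2 ^ (k₁ + k₂ + l + 1)) ((k₁ + k₂ + l + 1) * 2 ^ (k₁ + k₂ + l) * H) := by
    intro e he c hc hc0
    have h1 := hgen (c 0) (c 1) (c 2) (hc 0) (hc 1) (hc 2) (by
      fin_cases e
      · exact Or.inl hc0
      · exact Or.inr (Or.inl hc0)
      · exact Or.inr (Or.inr hc0)
      · exact absurd rfl he)
    rw [Fin.sum_univ_four]
    simpa using h1
  have hz : 1 ≤ z := by
    have hB : (1 : ℤ) ≤ ((k₁ + k₂ + l + 1) * 2 ^ (k₁ + k₂ + l + 1) : ℕ) := by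
      have : 0 < (k₁ + k₂ + l + 1) * 2 ^ (k₁ + k₂ + l + 1) := by positivity
      exact_mod_cast this
    have h1 := hgen 0 0 1 (by rw [abs_zero]; positivity) (by rw [abs_zero]; positivity)
      (by rw [abs_one]; exact hB) (by right; right; exact one_ne_zero)
    by_contra hcon
    have : z = 0 := by omega
    rw [this] at h1
    simp only [zero_mul, Nat.cast_zero, mul_zero, add_zero, abs_zero] at h1
    have h2 : (0 : ℤ) ≤ (((k₁ + k₂ + l + 1) * 2 ^ (k₁ + k₂ + l) * H : ℕ) : ℤ) :=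
      Int.natCast_nonneg _
    omega
  have hsum : ∑ e ∈ ((univ : Finset (Fin 4)).erase 0).erase 1,
      (fun _ => (1 : ℤ)) e * 2 ^ (![x, y, z, 0] : Fin 4 → ℕ) e = 2 ^ z + 1 := by
    rw [hset, Finset.sum_pair (by decide)]
    simp
  have hcop : IsCoprime ((2 : ℤ) ^ z + 1) 2 := by
    obtain ⟨z', rfl⟩ : ∃ z', z = z' + 1 := ⟨z - 1, by omega⟩
    exact ⟨1, -(2 ^ z'), by ring⟩
  have key := euclid (m := 4) (b := 2) (by norm_num) x₁ α₁ x₂ α₂ q β (fun _ => 1) ![x, y, z, 0]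
    0 1 (by decide) one_ne_zero one_ne_zero (by rw [hsum]; positivity)
    (by
      rw [hsum]
      simp only [one_mul]
      exact hcop.pow_right)
    (by rw [hN]; exact heq) H (by simpa using hH) (hG 0 (by decide)) (hG 1 (by decide))
  rw [hN] at key
  exact key

/-! ### Numerical estimates -/

theorem params_three {n K m : ℕ} (hx : 300 ≤ Real.log n) (hK : (K : ℝ) ≤ Real.log n / 100)
    (hm : (m : ℝ) ≤ (n : ℝ) ^ ((1 : ℝ) / 50)) :
    (K + 1) * 2 ^ (K + 1) ≤ ⌊(n : ℝ) ^ ((1 : ℝ) / 40)⌋₊ ∧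
    (K + 1) * 2 ^ K * (2 * K + 2 * m + 1) ≤ ⌊(n : ℝ) ^ ((1 : ℝ) / 20)⌋₊ := by
  have hn : (0 : ℝ) < n := by
    rcases Nat.eq_zero_or_pos n with h | h
    · rw [h] at hx; simp at hx; linarith
    · exact_mod_cast h
  obtain ⟨x, hxd⟩ : ∃ x, x = Real.log n := ⟨_, rfl⟩
  rw [← hxd] at hx hK
  rw [Real.rpow_def_of_pos hn, ← hxd] at hm ⊢
  rw [Real.rpow_def_of_pos hn, ← hxd]
  have hK1 : ((K : ℝ) + 1) ≤ Real.exp (x / 100) :=
    (Real.add_one_le_exp _).trans (Real.exp_le_exp.2 hK)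
  have hl2 : Real.log 2 ≤ 0.7 := Real.log_two_lt_d9.le.trans (by norm_num)
  have h2K : (2 : ℝ) ^ (K + 1) ≤ Real.exp (0.7 * (x / 100 + 1)) := by
    rw [← Real.exp_log (show (0 : ℝ) < 2 ^ (K + 1) by positivity), Real.log_pow]
    apply Real.exp_le_exp.2
    push_cast
    have : (0 : ℝ) ≤ Real.log 2 := Real.log_nonneg (by norm_num)
    nlinarith
  have hprod : ((K : ℝ) + 1) * 2 ^ (K + 1) ≤ Real.exp (0.017 * x + 0.7) := by
    calc ((K : ℝ) + 1) * 2 ^ (K + 1) ≤ Real.exp (x / 100) * Real.exp (0.7 * (x / 100 + 1)) :=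
          mul_le_mul hK1 h2K (by positivity) (Real.exp_pos _).le
      _ = _ := by
          rw [← Real.exp_add]
          congr 1
          ring
  constructor
  · apply Nat.le_floor
    push_cast
    refine hprod.trans (Real.exp_le_exp.2 ?_)
    linarith
  · apply Nat.le_floor
    push_cast
    have h1 : ((K : ℝ) + 1) * 2 ^ K ≤ Real.exp (0.017 * x + 0.7) := by
      refine le_trans ?_ hprod
      apply mul_le_mul_of_nonneg_left _ (by positivity)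
      exact pow_le_pow_right₀ (by norm_num) (Nat.le_succ _)
    have h3 : (x * (1 / 50)) = x / 50 := by ring
    rw [h3] at hm
    have h4 : (1 : ℝ) ≤ Real.exp (x / 50) := Real.one_le_exp (by linarith)
    have h5 : (5 : ℝ) ≤ Real.exp 2 := by
      have : Real.exp 2 = Real.exp 1 * Real.exp 1 := by rw [← Real.exp_add]; norm_num
      rw [this]
      nlinarith [Real.exp_one_gt_d9]
    have hK2 : (K : ℝ) ≤ Real.exp (x / 50) := by
      have : Real.exp (x / 100) ≤ Real.exp (x / 50) := Real.exp_le_exp.2 (by linarith)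
      linarith
    have h6 : 2 * (K : ℝ) + 2 * m + 1 ≤ Real.exp (x / 50 + 2) := by
      rw [Real.exp_add]
      nlinarith
    calc ((K : ℝ) + 1) * 2 ^ K * (2 * K + 2 * m + 1)
        ≤ Real.exp (0.017 * x + 0.7) * Real.exp (x / 50 + 2) :=
          mul_le_mul h1 h6 (by positivity) (Real.exp_pos _).le
      _ = Real.exp (0.017 * x + 0.7 + (x / 50 + 2)) := (Real.exp_add _ _).symm
      _ ≤ _ := by
          apply Real.exp_le_exp.2
          linarith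

theorem count_three {n : ℕ} (hx : 300 ≤ Real.log n) :
    (((2 * ⌊(n : ℝ) ^ ((1 : ℝ) / 40)⌋₊ + 1) ^ 3 * (⌊(n : ℝ) ^ ((1 : ℝ) / 40)⌋₊ *
      ((Nat.sqrt n + 1) * (2 * ⌊(n : ℝ) ^ ((1 : ℝ) / 20)⌋₊ + 1))) : ℕ) : ℝ) ≤
      (n : ℝ) ^ ((7 : ℝ) / 10) := by
  have hn : (0 : ℝ) < n := by
    rcases Nat.eq_zero_or_pos n with h | h
    · rw [h] at hx; simp at hx; linarith
    · exact_mod_cast h
  obtain ⟨r, hr⟩ : ∃ r, r = (n : ℝ) ^ ((1 : ℝ) / 40) := ⟨_, rfl⟩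
  have hr0 : 0 < r := by rw [hr]; positivity
  have hr162 : 162 ≤ r := by
    rw [hr, Real.rpow_def_of_pos hn]
    have h1 : Real.exp 6 ≤ Real.exp (Real.log n * (1 / 40)) := Real.exp_le_exp.2 (by linarith)
    refine le_trans ?_ h1
    have : Real.exp 6 = Real.exp 1 ^ 6 := by
      rw [← Real.exp_nat_mul]; norm_num
    rw [this]
    have h2 : (2.7 : ℝ) ≤ Real.exp 1 := by linarith [Real.exp_one_gt_d9]
    calc (162 : ℝ) ≤ 2.7 ^ 6 := by norm_num
      _ ≤ _ := pow_le_pow_left₀ (by norm_num) h2 6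
  have hr2 : (n : ℝ) ^ ((1 : ℝ) / 20) = r ^ 2 := by
    rw [hr, ← Real.rpow_natCast, ← Real.rpow_mul hn.le]
    norm_num
  have hr28 : (n : ℝ) ^ ((7 : ℝ) / 10) = r ^ 28 := by
    rw [hr, ← Real.rpow_natCast, ← Real.rpow_mul hn.le]
    norm_num
  have hr40 : (n : ℝ) = r ^ 40 := by
    rw [hr, ← Real.rpow_natCast, ← Real.rpow_mul hn.le]
    norm_num
  have hB : (⌊r⌋₊ : ℝ) ≤ r := Nat.floor_le hr0.le
  have hT : (⌊r ^ 2⌋₊ : ℝ) ≤ r ^ 2 := Nat.floor_le (by positivity)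
  have hS : (Nat.sqrt n : ℝ) ≤ r ^ 20 := by
    have h1 : (Nat.sqrt n : ℝ) ^ 2 ≤ (r ^ 20) ^ 2 := by
      have h2 := Nat.sqrt_le' n
      have h3 : ((Nat.sqrt n ^ 2 : ℕ) : ℝ) ≤ (n : ℝ) := by exact_mod_cast h2
      push_cast at h3
      refine h3.trans ?_
      rw [hr40, ← pow_mul]
    exact (pow_le_pow_iff_left₀ (by positivity) (by positivity) two_ne_zero).1 h1
  rw [hr2, hr28, ← hr]
  push_cast
  have h1 : (2 * (⌊r⌋₊ : ℝ) + 1) ^ 3 ≤ (3 * r) ^ 3 := by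
    apply pow_le_pow_left₀ (by positivity)
    linarith
  have h10 : (1 : ℝ) ≤ r ^ 20 := one_le_pow₀ (by linarith)
  have h2 : (Nat.sqrt n : ℝ) + 1 ≤ 2 * r ^ 20 := by linarith
  have h3 : 2 * (⌊r ^ 2⌋₊ : ℝ) + 1 ≤ 3 * r ^ 2 := by nlinarith
  calc (2 * (⌊r⌋₊ : ℝ) + 1) ^ 3 * ((⌊r⌋₊ : ℝ) * (((Nat.sqrt n : ℝ) + 1) * (2 * (⌊r ^ 2⌋₊ : ℝ) + 1)))
      ≤ (3 * r) ^ 3 * (r * ((2 * r ^ 20) * (3 * r ^ 2))) := by
        apply mul_le_mul h1 _ (by positivity) (by positivity)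
        apply mul_le_mul hB _ (by positivity) (by positivity)
        exact mul_le_mul h2 h3 (by positivity) (by positivity)
    _ = 162 * r ^ 26 := by ring
    _ ≤ r ^ 2 * r ^ 26 := by
        apply mul_le_mul_of_nonneg_right _ (by positivity)
        nlinarith
    _ = _ := by ring

theorem divBound_eventually : ∀ᶠ n : ℕ in atTop,
    DivBound ⌊(n : ℝ) ^ ((1 : ℝ) / 40)⌋₊ n ⌊(n : ℝ) ^ ((1 : ℝ) / 40)⌋₊ := by
  obtain ⟨C, hC, hdiv⟩ := Pool.Agent.H510R2.divisor_bound (1 / 200) (by norm_num)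
  have hlog : Tendsto (fun n : ℕ => Real.log (n : ℝ)) atTop atTop :=
    Real.tendsto_log_atTop.comp tendsto_natCast_atTop_atTop
  have hexp : ∀ᶠ n : ℕ in atTop, 20 * C ^ 2 + 8 ≤ Real.exp (0.013 * Real.log n) := by
    have : Tendsto (fun n : ℕ => Real.exp (0.013 * Real.log (n : ℝ))) atTop atTop :=
      Real.tendsto_exp_atTop.comp (hlog.const_mul_atTop (by norm_num))
    exact this.eventually_ge_atTop _
  filter_upwards [hlog.eventually_ge_atTop (300 : ℝ), hexp] with n hx hC2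
  have hn : (0 : ℝ) < n := by
    rcases Nat.eq_zero_or_pos n with h | h
    · rw [h] at hx; simp at hx; linarith
    · exact_mod_cast h
  obtain ⟨x, hxd⟩ : ∃ x, x = Real.log n := ⟨_, rfl⟩
  have hexn : (n : ℝ) = Real.exp x := by rw [hxd, Real.exp_log hn]
  rw [← hxd] at hx hC2
  have hr : (n : ℝ) ^ ((1 : ℝ) / 40) = Real.exp (x / 40) := by
    rw [Real.rpow_def_of_pos hn, ← hxd]
    congr 1
    ring
  intro K hK
  apply Nat.le_floor
  rw [hr] at hK ⊢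
  have hone : (1 : ℝ) ≤ Real.exp (0.012 * x) := Real.one_le_exp (by positivity)
  have hK2 : (K : ℝ) ≤ Real.exp (1.2 * x) := by
    have h1 : (K : ℝ) ≤ 2 * (⌊Real.exp (x / 40)⌋₊ : ℝ) ^ 4 * n := by exact_mod_cast hK
    have h2 : (⌊Real.exp (x / 40)⌋₊ : ℝ) ^ 4 ≤ Real.exp (x / 40) ^ 4 :=
      pow_le_pow_left₀ (by positivity) (Nat.floor_le (Real.exp_pos _).le) 4
    rw [hexn] at h1
    have h4 : (2 : ℝ) ≤ Real.exp 1 := by linarith [Real.exp_one_gt_d9]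
    calc (K : ℝ) ≤ 2 * (⌊Real.exp (x / 40)⌋₊ : ℝ) ^ 4 * Real.exp x := h1
      _ ≤ Real.exp 1 * Real.exp (x / 40) ^ 4 * Real.exp x := by
          apply mul_le_mul_of_nonneg_right _ (Real.exp_pos _).le
          exact mul_le_mul h4 h2 (by positivity) (Real.exp_pos _).le
      _ = Real.exp (1 + 4 * (x / 40) + x) := by
          rw [← Real.exp_nat_mul, ← Real.exp_add, ← Real.exp_add]
          norm_num
      _ ≤ _ := Real.exp_le_exp.2 (by linarith)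
  have htau : ((K.divisors.card : ℕ) : ℝ) ^ 2 ≤ C ^ 2 * Real.exp (0.012 * x) := by
    rcases Nat.eq_zero_or_pos K with h0 | h0
    · have h2 : ((K.divisors.card : ℕ) : ℝ) ^ 2 = 0 := by rw [h0]; simp
      rw [h2]
      positivity
    · have h1 := hdiv K h0
      have hK0 : (0 : ℝ) < K := by exact_mod_cast h0
      have h2 : (K : ℝ) ^ ((1 : ℝ) / 200) ≤ Real.exp (0.006 * x) := by
        calc (K : ℝ) ^ ((1 : ℝ) / 200) ≤ (Real.exp (1.2 * x)) ^ ((1 : ℝ) / 200) :=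
              Real.rpow_le_rpow hK0.le hK2 (by norm_num)
          _ = Real.exp (0.006 * x) := by
              rw [← Real.exp_mul]
              congr 1
              ring
      have h3 : ((K.divisors.card : ℕ) : ℝ) ≤ C * Real.exp (0.006 * x) :=
        h1.trans (mul_le_mul_of_nonneg_left h2 hC.le)
      calc ((K.divisors.card : ℕ) : ℝ) ^ 2 ≤ (C * Real.exp (0.006 * x)) ^ 2 :=
            pow_le_pow_left₀ (Nat.cast_nonneg _) h3 2
        _ = C ^ 2 * Real.exp (0.012 * x) := by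
            rw [mul_pow, ← Real.exp_nat_mul]
            congr 2
            push_cast
            ring
  obtain ⟨d, hd⟩ : ∃ d, d = K.divisors.card := ⟨_, rfl⟩
  rw [← hd] at htau ⊢
  calc ((4 * (5 * d ^ 2 + 2) : ℕ) : ℝ) ≤ (20 * C ^ 2 + 8) * Real.exp (0.012 * x) := by
        push_cast
        nlinarith
    _ ≤ Real.exp (0.013 * x) * Real.exp (0.012 * x) :=
        mul_le_mul_of_nonneg_right hC2 (Real.exp_pos _).le
    _ = Real.exp (x / 40) := by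
        rw [← Real.exp_add]
        congr 1
        ring

end Q217.TG
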