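import Pool.Agent.Q217.TG.Pair

/-!
# Euclid's lemma for almost all values `2 ^ (x + y) + 2 ^ (z + w) + 1`
-/

set_option autoImplicit false

namespace Q217.TG

open Finset

/-- `u` is a sum of `k` terms `a 2 ^ α` with `|a| < 2 ^ h`. -/
def Win (k h : ℕ) (u : ℤ) : Prop :=
  ∃ (a : Fin k → ℤ) (α : Fin k → ℕ), (∀ i, |a i| < 2 ^ h) ∧ u = ∑ i, a i * 2 ^ α i

/-- Euclid's lemma for sparse integers, with the ranges for `n`. -/
def EuclidAt (n : ℕ) (N : ℕ) : Prop :=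
  ∀ (k₁ k₂ k₃ h : ℕ) (u v q : ℤ), (k₁ + k₂ + k₃ : ℝ) ≤ Real.log n / 50 →
    (h : ℝ) ≤ (n : ℝ) ^ ((1 : ℝ) / 50) → Win k₁ h u → Win k₂ h v → Win k₃ h q →
    u * v = q * N → (N : ℤ) ∣ u ∨ (N : ℤ) ∣ v

theorem sum_abs_le {k h : ℕ} {a : Fin k → ℤ} (ha : ∀ i, |a i| < 2 ^ h) :
    ∑ i, |a i| ≤ k * 2 ^ h := by
  have := Finset.sum_le_card_nsmul (univ : Finset (Fin k)) (fun i => |a i|) (2 ^ h)
    (fun i _ => (ha i).le)
  simpa using this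

theorem size_bound {k₁ k₂ k₃ h : ℕ} {A₁ A₂ A₃ : ℤ} (h1 : A₁ ≤ k₁ * 2 ^ h) (h2 : A₂ ≤ k₂ * 2 ^ h)
    (h3 : A₃ ≤ k₃ * 2 ^ h) (p1 : 0 ≤ A₁) (p2 : 0 ≤ A₂) :
    A₁ * A₂ + A₃ * 3 < 2 ^ (2 * (k₁ + k₂ + k₃) + 2 * h + 1 + 1) := by
  have hP : (1 : ℤ) ≤ 2 ^ h := one_le_pow₀ (by norm_num)
  obtain ⟨P, hPd⟩ : ∃ P : ℤ, P = 2 ^ h := ⟨_, rfl⟩
  rw [← hPd] at h1 h2 h3 hP
  have e1 : (2 : ℤ) ^ (2 * (k₁ + k₂ + k₃) + 2 * h + 1 + 1) =
      (2 ^ (k₁ + k₂ + k₃ + 1)) ^ 2 * P ^ 2 := by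
    rw [hPd, ← pow_mul, ← pow_mul, ← pow_add]
    congr 1
    ring
  obtain ⟨K, hK⟩ : ∃ K : ℤ, K = k₁ + k₂ + k₃ := ⟨_, rfl⟩
  have hK2 : K + 2 ≤ 2 ^ (k₁ + k₂ + k₃ + 1) := by
    have h4 : k₁ + k₂ + k₃ + 1 ≤ 2 ^ (k₁ + k₂ + k₃) := Nat.lt_two_pow_self
    have h5 : ((k₁ + k₂ + k₃ + 1 : ℕ) : ℤ) ≤ ((2 ^ (k₁ + k₂ + k₃) : ℕ) : ℤ) := by exact_mod_cast h4
    push_cast at h5
    rw [pow_succ, hK]
    linarith
  have q1 : (0 : ℤ) ≤ k₁ := Int.natCast_nonneg _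
  have q2 : (0 : ℤ) ≤ k₂ := Int.natCast_nonneg _
  have q3 : (0 : ℤ) ≤ k₃ := Int.natCast_nonneg _
  have hK0 : 0 ≤ K := by linarith
  have a1 : A₁ ≤ K * P := h1.trans (mul_le_mul_of_nonneg_right (by linarith) (by linarith))
  have a2 : A₂ ≤ K * P := h2.trans (mul_le_mul_of_nonneg_right (by linarith) (by linarith))
  have a3 : A₃ ≤ K * P := h3.trans (mul_le_mul_of_nonneg_right (by linarith) (by linarith))
  rw [e1]
  calc A₁ * A₂ + A₃ * 3 ≤ (K * P) * (K * P) + (K * P) * 3 := by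
        have := mul_le_mul a1 a2 p2 (by positivity)
        linarith
    _ ≤ (K ^ 2 + 3 * K) * P ^ 2 := by
        have : K * P * 3 ≤ 3 * K * P ^ 2 := by nlinarith [mul_nonneg hK0 (by linarith : (0 : ℤ) ≤ P)]
        nlinarith
    _ < (K + 2) ^ 2 * P ^ 2 := by
        apply mul_lt_mul_of_pos_right _ (by positivity)
        nlinarith
    _ ≤ _ := by
        apply mul_le_mul_of_nonneg_right _ (by positivity)
        exact pow_le_pow_left₀ (by linarith) hK2 2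

theorem euclidAt_of_gen {n s t : ℕ} (hx : 200 ≤ Real.log n)
    (hg : PairGen ⌊(n : ℝ) ^ ((1 : ℝ) / 20)⌋₊ ⌊(n : ℝ) ^ ((1 : ℝ) / 10)⌋₊ s t) :
    EuclidAt n (2 ^ s + 2 ^ t + 1) := by
  intro k₁ k₂ k₃ h u v q hK hh hu hv hq heq
  obtain ⟨a₁, α₁, ha₁, hu⟩ := hu
  obtain ⟨a₂, α₂, ha₂, hv⟩ := hv
  obtain ⟨a₃, α₃, ha₃, hq⟩ := hq
  obtain ⟨p1, p2⟩ := params (n := n) (K := k₁ + k₂ + k₃) (m := h) hx (by push_cast; exact hK) hh
  have hN : (((2 ^ s + 2 ^ t + 1 : ℕ)) : ℤ) = 2 ^ s + 2 ^ t + 1 := by push_cast; rfl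
  rw [hN] at heq ⊢
  rw [hu, hv, hq] at heq
  rw [hu, hv]
  have hs0 : ∀ {k : ℕ} (a : Fin k → ℤ), 0 ≤ ∑ i, |a i| :=
    fun a => Finset.sum_nonneg (fun i _ => abs_nonneg _)
  exact euclid_pair (b := 2) (by norm_num) a₁ α₁ a₂ α₂ a₃ α₃ s t heq
    (2 * (k₁ + k₂ + k₃) + 2 * h + 1)
    (size_bound (sum_abs_le ha₁) (sum_abs_le ha₂) (sum_abs_le ha₃) (hs0 a₁) (hs0 a₂))
    (hg.mono p1 p2)

/-- no sparse factorization -/
theorem trivial_factor {n N : ℕ} (hN : N ≠ 0) (h : EuclidAt n N) (hx : 200 ≤ Real.log n)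
    {k₁ k₂ : ℕ} {u v : ℤ} (hk : (k₁ + k₂ + 1 : ℝ) ≤ Real.log n / 50) (hu : Win k₁ 1 u)
    (hv : Win k₂ 1 v) (huv : u * v = N) : (u = 1 ∨ u = -1) ∨ (v = 1 ∨ v = -1) := by
  have hn : (0 : ℝ) < n := by
    rcases Nat.eq_zero_or_pos n with h | h
    · rw [h] at hx; simp at hx; linarith
    · exact_mod_cast h
  have h1 : Win 1 1 1 := ⟨fun _ => 1, fun _ => 0, fun _ => by norm_num, by simp⟩
  have hn1 : (1 : ℝ) ≤ n := by
    have : 1 ≤ n := by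
      have : (0 : ℝ) < n := hn
      exact_mod_cast this
    exact_mod_cast this
  have h2 := h k₁ k₂ 1 1 u v 1 (by push_cast; exact hk) (by
      push_cast
      exact Real.one_le_rpow hn1 (by norm_num)) hu hv h1 (by rw [one_mul]; exact huv)
  have hN0 : (N : ℤ) ≠ 0 := by exact_mod_cast hN
  have hunit : ∀ u v : ℤ, u * v = N → (N : ℤ) ∣ u → v = 1 ∨ v = -1 := by
    intro u v huv hd
    obtain ⟨w, hw⟩ := hd
    have h1 : (N : ℤ) * (w * v) = (N : ℤ) * 1 := by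
      rw [← mul_assoc, ← hw, huv, mul_one]
    have h2 := mul_left_cancel₀ hN0 h1
    exact Int.isUnit_iff.1 (IsUnit.of_mul_eq_one w (by rw [mul_comm]; exact h2))
  rcases h2 with h3 | h3
  · exact Or.inr (hunit u v huv h3)
  · exact Or.inl (hunit v u (by rw [mul_comm]; exact huv) h3)

/-- all values with few exceptions -/
theorem few_exceptions {n : ℕ} (hx : 200 ≤ Real.log n) :
    ∃ F : Finset ℕ, (F.card : ℝ) ≤ (n : ℝ) ^ ((3 : ℝ) / 4) ∧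
      ∀ x y z w : ℕ, n = x ^ 2 + y ^ 2 + z ^ 2 + w ^ 2 → 2 ^ (x + y) + 2 ^ (z + w) + 1 ∉ F →
        EuclidAt n (2 ^ (x + y) + 2 ^ (z + w) + 1) := by
  classical
  obtain ⟨B, hB⟩ : ∃ B, B = ⌊(n : ℝ) ^ ((1 : ℝ) / 20)⌋₊ := ⟨_, rfl⟩
  obtain ⟨T, hT⟩ : ∃ T, T = ⌊(n : ℝ) ^ ((1 : ℝ) / 10)⌋₊ := ⟨_, rfl⟩
  refine ⟨((range (Nat.sqrt (2 * n) + 1) ×ˢ range (Nat.sqrt (2 * n) + 1)).filter
    (fun p : ℕ × ℕ => ¬ PairGen B T p.1 p.2)).image (fun p => 2 ^ p.1 + 2 ^ p.2 + 1), ?_, ?_⟩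
  · have h1 := (card_image_le (s := (range (Nat.sqrt (2 * n) + 1) ×ˢ
      range (Nat.sqrt (2 * n) + 1)).filter (fun p : ℕ × ℕ => ¬ PairGen B T p.1 p.2))
      (f := fun p => 2 ^ p.1 + 2 ^ p.2 + 1)).trans (card_bad B T (Nat.sqrt (2 * n)))
    have h2 := count_le hx
    rw [← hB, ← hT] at h2
    refine le_trans ?_ h2
    exact_mod_cast h1
  · intro x y z w hn hF
    rw [hB, hT] at hF
    apply euclidAt_of_gen hx
    by_contra hcon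
    apply hF
    rw [mem_image]
    refine ⟨(x + y, z + w), ?_, rfl⟩
    rw [mem_filter, mem_product, mem_range, mem_range]
    refine ⟨⟨?_, ?_⟩, hcon⟩
    · rw [Nat.lt_succ_iff, Nat.le_sqrt']
      nlinarith [sq_nonneg ((x : ℤ) - y), Nat.zero_le (z ^ 2), Nat.zero_le (w ^ 2)]
    · rw [Nat.lt_succ_iff, Nat.le_sqrt']
      nlinarith [sq_nonneg ((z : ℤ) - w), Nat.zero_le (x ^ 2), Nat.zero_le (y ^ 2)]

/-- comparison of powers -/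
theorem powers {ε : ℝ} (hε : 0 < ε) {n : ℕ} (hx : 200 ≤ Real.log n) (hx2 : 2 / ε ≤ Real.log n) :
    (n : ℝ) ^ (1 - ε) + (n : ℝ) ^ ((3 : ℝ) / 4) ≤ (n : ℝ) ^ (1 - min ε (1 / 4) / 2) := by
  have hn : (0 : ℝ) < n := by
    rcases Nat.eq_zero_or_pos n with h | h
    · rw [h] at hx; simp at hx; linarith
    · exact_mod_cast h
  obtain ⟨x, hxd⟩ : ∃ x, x = Real.log n := ⟨_, rfl⟩
  rw [Real.rpow_def_of_pos hn, Real.rpow_def_of_pos hn, Real.rpow_def_of_pos hn, ← hxd]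
  rw [← hxd] at hx hx2
  have m1 : min ε (1 / 4) ≤ ε := min_le_left _ _
  have m2 : min ε (1 / 4) ≤ 1 / 4 := min_le_right _ _
  have h2 : (2 : ℝ) ≤ Real.exp 1 := by linarith [Real.exp_one_gt_d9]
  have hex : 2 ≤ ε * x := by
    rw [div_le_iff₀ hε] at hx2
    linarith
  have e1 : 2 * Real.exp (x * (1 - ε)) ≤ Real.exp (x * (1 - min ε (1 / 4) / 2)) := by
    calc 2 * Real.exp (x * (1 - ε)) ≤ Real.exp 1 * Real.exp (x * (1 - ε)) :=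
          mul_le_mul_of_nonneg_right h2 (Real.exp_pos _).le
      _ = Real.exp (1 + x * (1 - ε)) := (Real.exp_add _ _).symm
      _ ≤ _ := by
          apply Real.exp_le_exp.2
          nlinarith
  have e2 : 2 * Real.exp (x * (3 / 4)) ≤ Real.exp (x * (1 - min ε (1 / 4) / 2)) := by
    calc 2 * Real.exp (x * (3 / 4)) ≤ Real.exp 1 * Real.exp (x * (3 / 4)) :=
          mul_le_mul_of_nonneg_right h2 (Real.exp_pos _).le
      _ = Real.exp (1 + x * (3 / 4)) := (Real.exp_add _ _).symm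
      _ ≤ _ := by
          apply Real.exp_le_exp.2
          nlinarith
  linarith

end Q217.TG
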