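import Pool.Agent.Q217.TG.LinParam

/-!
# Weights on the terms of a product identity with a sum of several terms as last factor
-/

set_option autoImplicit false

namespace Q217.TG

open Finset Polynomial

variable {k₁ k₂ l m : ℕ}

/-- the index set of the terms -/
abbrev Idx (k₁ k₂ l m : ℕ) : Type := (Fin k₁ × Fin k₂) ⊕ (Fin l × Fin m)

/-- the index set of the unknown exponents; `none` stands for the exponent `A e₁` -/
abbrev Var (k₁ k₂ l : ℕ) : Type := Option ((Fin k₁ ⊕ Fin k₂) ⊕ Fin l)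

/-- the exponents of the terms -/
def expo (α₁ : Fin k₁ → ℤ) (α₂ : Fin k₂ → ℤ) (β : Fin l → ℤ) (A : Fin m → ℤ) :
    Idx k₁ k₂ l m → ℤ
  | .inl p => α₁ p.1 + α₂ p.2
  | .inr p => β p.1 + A p.2

/-- the exponent vectors -/
def vec (e₁ : Fin m) : Idx k₁ k₂ l m → Var k₁ k₂ l → ℤ
  | .inl _, none => 0
  | .inl p, some (.inl (.inl i)) => if p.1 = i then 1 else 0
  | .inl p, some (.inl (.inr i)) => if p.2 = i then 1 else 0
  | .inl _, some (.inr _) => 0
  | .inr p, none => if p.2 = e₁ then 1 else 0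
  | .inr _, some (.inl _) => 0
  | .inr p, some (.inr j) => if p.1 = j then 1 else 0

/-- the parameter vectors -/
def par (e₁ : Fin m) : Idx k₁ k₂ l m → Fin m → ℤ
  | .inl _, _ => 0
  | .inr p, e => if p.2 = e ∧ e ≠ e₁ then 1 else 0

theorem vec_nonneg (e₁ : Fin m) (i : Idx k₁ k₂ l m) (p : Var k₁ k₂ l) : 0 ≤ vec e₁ i p := by
  rcases i with i | i <;> rcases p with _ | ((p | p) | p) <;> simp only [vec] <;>
    (try split_ifs) <;> norm_num

theorem vec_sq (e₁ : Fin m) (i : Idx k₁ k₂ l m) (p : Var k₁ k₂ l) :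
    vec e₁ i p ^ 2 = vec e₁ i p := by
  rcases i with i | i <;> rcases p with _ | ((p | p) | p) <;> simp only [vec] <;>
    (try split_ifs) <;> norm_num

theorem sum_vec_inl (e₁ : Fin m) (q : Fin k₁ × Fin k₂) (x : Var k₁ k₂ l → ℤ) :
    ∑ p, vec e₁ (.inl q : Idx k₁ k₂ l m) p * x p =
      x (some (.inl (.inl q.1))) + x (some (.inl (.inr q.2))) := by
  rw [Fintype.sum_option, Fintype.sum_sum_type, Fintype.sum_sum_type]
  simp [vec]

theorem sum_vec_inr (e₁ : Fin m) (q : Fin l × Fin m) (x : Var k₁ k₂ l → ℤ) :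
    ∑ p, vec e₁ (.inr q : Idx k₁ k₂ l m) p * x p =
      (if q.2 = e₁ then x none else 0) + x (some (.inr q.1)) := by
  rw [Fintype.sum_option, Fintype.sum_sum_type, Fintype.sum_sum_type]
  simp [vec]

theorem vec_norm (e₁ : Fin m) (i : Idx k₁ k₂ l m) : ∑ p, vec e₁ i p ^ 2 ≤ 2 := by
  have h1 : ∑ p, vec e₁ i p ^ 2 = ∑ p, vec e₁ i p * (fun _ => 1) p := by
    apply Finset.sum_congr rfl
    intro p _
    rw [vec_sq]; ring
  rw [h1]
  rcases i with q | q
  · rw [sum_vec_inl]; norm_num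
  · rw [sum_vec_inr]; split_ifs <;> norm_num

theorem vec_sub_norm (e₁ : Fin m) (i j : Idx k₁ k₂ l m) :
    ∑ p, ((vec e₁ i p - vec e₁ j p : ℤ) : ℝ) ^ 2 ≤ 4 := by
  have h : ∑ p, (vec e₁ i p - vec e₁ j p) ^ 2 ≤ 4 := by
    calc ∑ p, (vec e₁ i p - vec e₁ j p) ^ 2 ≤ ∑ p, (vec e₁ i p ^ 2 + vec e₁ j p ^ 2) := by
          apply Finset.sum_le_sum
          intro p _
          nlinarith [mul_nonneg (vec_nonneg e₁ i p) (vec_nonneg e₁ j p)]
      _ = ∑ p, vec e₁ i p ^ 2 + ∑ p, vec e₁ j p ^ 2 := Finset.sum_add_distrib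
      _ ≤ 4 := by
          have := vec_norm e₁ i
          have := vec_norm e₁ j
          linarith
  exact_mod_cast h

/-- the unknown exponents -/
def unk (α₁ : Fin k₁ → ℤ) (α₂ : Fin k₂ → ℤ) (β : Fin l → ℤ) (a : ℤ) : Var k₁ k₂ l → ℤ
  | none => a
  | some (.inl (.inl i)) => α₁ i
  | some (.inl (.inr i)) => α₂ i
  | some (.inr j) => β j

theorem expo_eq (α₁ : Fin k₁ → ℤ) (α₂ : Fin k₂ → ℤ) (β : Fin l → ℤ) (A : Fin m → ℤ) (e₁ : Fin m)
    (i : Idx k₁ k₂ l m) :
    ∑ p, vec e₁ i p * unk α₁ α₂ β (A e₁) p + ∑ e, par e₁ i e * A e = expo α₁ α₂ β A i := by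
  rcases i with q | q
  · rw [sum_vec_inl]
    simp [unk, par, expo]
  · rw [sum_vec_inr]
    simp only [unk, par, expo]
    by_cases h : q.2 = e₁
    · have : ∀ e, ¬ (q.2 = e ∧ e ≠ e₁) := by
        rintro e ⟨h1, h2⟩
        exact h2 (h1 ▸ h)
      simp only [if_neg (this _)]
      simp [h]
      ring
    · have : ∀ e, (if q.2 = e ∧ e ≠ e₁ then (1 : ℤ) else 0) = if q.2 = e then 1 else 0 := by
        intro e
        by_cases h1 : q.2 = e
        · have h2 : e ≠ e₁ := fun h3 => h (h1.trans h3)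
          simp [h1, h2]
        · simp [h1]
      simp [this, h]

/-- **General position.** No integral linear combination of the `A e` with coefficients of absolute
value at most `B`, not zero for `e = e₁`, has absolute value at most `T`. -/
def Gen (A : Fin m → ℤ) (e₁ : Fin m) (B T : ℕ) : Prop :=
  ∀ c : Fin m → ℤ, (∀ e, |c e| ≤ B) → c e₁ ≠ 0 → (T : ℤ) < |∑ e, c e * A e|

/-- the weights -/
def wt (e₁ : Fin m) (z₁ : Fin k₁ → ℕ) (z₂ : Fin k₂ → ℕ) (zq : Fin l → ℕ) (s sq Y : ℕ) :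
    Idx k₁ k₂ l m → ℕ
  | .inl p => sq + z₁ p.1 + z₂ p.2
  | .inr p => s + zq p.1 + if p.2 = e₁ then Y else 0

theorem exists_weights (α₁ : Fin k₁ → ℤ) (α₂ : Fin k₂ → ℤ) (β : Fin l → ℤ) (A : Fin m → ℤ)
    (e₁ : Fin m) (h : ℕ)
    (hgen : Gen A e₁ ((k₁ + k₂ + l + 1) * 2 ^ (k₁ + k₂ + l + 1))
      ((k₁ + k₂ + l + 1) * 2 ^ (k₁ + k₂ + l) * h)) :
    ∃ (z₁ : Fin k₁ → ℕ) (z₂ : Fin k₂ → ℕ) (zq : Fin l → ℕ) (s sq Y : ℕ), 1 ≤ Y ∧
      ∀ i j : Idx k₁ k₂ l m, expo α₁ α₂ β A i ≤ expo α₁ α₂ β A j + h →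
        expo α₁ α₂ β A j ≤ expo α₁ α₂ β A i + h →
        wt e₁ z₁ z₂ zq s sq Y i = wt e₁ z₁ z₂ zq s sq Y j := by
  classical
  have hcard : Fintype.card (Var k₁ k₂ l) = k₁ + k₂ + l + 1 := by
    simp [Fintype.card_option]
  have hsqrt : Real.sqrt (4 : ℝ) = 2 := by
    rw [show (4 : ℝ) = 2 ^ 2 by norm_num]
    exact Real.sqrt_sq (by norm_num)
  let E : Idx k₁ k₂ l m → ℤ := expo α₁ α₂ β A
  let Rows : Set ((Var k₁ k₂ l → ℤ) × (Fin m → ℤ)) :=
    {v | ∃ i j : Idx k₁ k₂ l m, E i ≤ E j + h ∧ E j ≤ E i + h ∧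
      v = (fun p => vec e₁ i p - vec e₁ j p, fun e => par e₁ i e - par e₁ j e)}
  obtain ⟨y, hy1, -, hy3⟩ := exists_functional_param (none : Var k₁ k₂ l) Rows
    (by norm_num : (1 : ℝ) ≤ 4)
    (by
      rintro _ ⟨i, j, -, -, rfl⟩
      exact vec_sub_norm e₁ i j)
    (by
      rintro _ ⟨i, j, -, -, rfl⟩ q
      have h0 : ∀ i : Idx k₁ k₂ l m, 0 ≤ par e₁ i q ∧ par e₁ i q ≤ 1 := by
        intro i
        rcases i with i | i <;> simp only [par] <;> (try split_ifs) <;> norm_num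
      have h1 := h0 i
      have h2 := h0 j
      have h3 : |par e₁ i q - par e₁ j q| ≤ 1 := by
        rw [abs_le]; constructor <;> omega
      exact_mod_cast h3)
    (unk α₁ α₂ β (A e₁)) (fun e => if e = e₁ then 0 else A e) (h := h) (by positivity)
    (by
      rintro _ ⟨i, j, h1, h2, rfl⟩
      have hp : ∀ i : Idx k₁ k₂ l m, ∑ e, par e₁ i e * (if e = e₁ then 0 else A e) =
          ∑ e, par e₁ i e * A e := by
        intro i
        apply Finset.sum_congr rfl
        intro e _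
        by_cases he : e = e₁
        · rcases i with i | i <;> simp [par, he]
        · rw [if_neg he]
      have e1 : ∑ p, (vec e₁ i p - vec e₁ j p) * unk α₁ α₂ β (A e₁) p +
          ∑ e, (par e₁ i e - par e₁ j e) * (if e = e₁ then 0 else A e) = E i - E j := by
        have h5 := expo_eq α₁ α₂ β A e₁ i
        have h6 := expo_eq α₁ α₂ β A e₁ j
        rw [← hp] at h5 h6
        simp only [sub_mul, Finset.sum_sub_distrib]
        change _ = expo α₁ α₂ β A i - expo α₁ α₂ β A j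
        linarith
      rw [e1]
      have e2 : |E i - E j| ≤ h := by
        rw [abs_le]; constructor <;> omega
      exact_mod_cast e2)
    (by
      intro D M hD hD1 hM
      rw [hcard, hsqrt] at *
      simp only [add_tsub_cancel_right] at *
      have h1 := hgen (fun e => if e = e₁ then D else M e)
        (by
          intro e
          have h2 : (1 : ℝ) ≤ ((k₁ + k₂ + l + 1 : ℕ) : ℝ) := by
            exact_mod_cast Nat.le_add_left 1 _
          have h3 : (0 : ℝ) < (2 : ℝ) ^ (k₁ + k₂ + l) := by positivity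
          by_cases he : e = e₁
          · rw [if_pos he]
            have : |(D : ℝ)| ≤ ((k₁ + k₂ + l + 1 : ℕ) : ℝ) * 2 ^ (k₁ + k₂ + l + 1) := by
              refine hD1.trans ?_
              exact le_mul_of_one_le_left (by positivity) h2
            exact_mod_cast this
          · rw [if_neg he]
            have : |(M e : ℝ)| ≤ ((k₁ + k₂ + l + 1 : ℕ) : ℝ) * 2 ^ (k₁ + k₂ + l + 1) := by
              refine (hM e).trans ?_
              apply mul_le_mul_of_nonneg_left _ (by positivity)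
              exact pow_le_pow_right₀ (by norm_num) (Nat.le_succ _)
            exact_mod_cast this)
        (by simpa using hD)
      have h4 : ∑ e, (if e = e₁ then D else M e) * A e =
          D * unk α₁ α₂ β (A e₁) none + ∑ q, M q * (if q = e₁ then 0 else A q) := by
        simp only [unk]
        rw [← Finset.add_sum_erase _ _ (Finset.mem_univ e₁),
          ← Finset.add_sum_erase (a := e₁) _ (fun q => M q * (if q = e₁ then 0 else A q))
            (Finset.mem_univ e₁)]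
        rw [if_pos rfl, if_pos rfl, mul_zero, zero_add]
        congr 1
        apply Finset.sum_congr rfl
        intro e he
        rw [Finset.mem_erase] at he
        rw [if_neg he.1, if_neg he.1]
      rw [h4] at h1
      have h5 : (((((k₁ + k₂ + l + 1) * 2 ^ (k₁ + k₂ + l) * h : ℕ) : ℤ)) : ℝ) <
          ((|D * unk α₁ α₂ β (A e₁) none + ∑ q, M q * (if q = e₁ then 0 else A q)| : ℤ) : ℝ) :=
        Int.cast_lt.2 h1
      rw [Int.cast_abs] at h5
      refine lt_of_eq_of_lt ?_ h5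
      push_cast
      ring)
  -- the shifts
  let s₁ : ℕ := ∑ i, (y (some (.inl (.inl i)))).natAbs
  let s₂ : ℕ := ∑ i, (y (some (.inl (.inr i)))).natAbs
  let sq : ℕ := ∑ j, (y (some (.inr j))).natAbs
  have hs₁ : ∀ i, 0 ≤ y (some (.inl (.inl i))) + s₁ := by
    intro i
    have h1 : (y (some (.inl (.inl i)))).natAbs ≤ s₁ :=
      Finset.single_le_sum (f := fun i => (y (some (.inl (.inl i)))).natAbs)
        (fun _ _ => Nat.zero_le _) (Finset.mem_univ i)
    omega
  have hs₂ : ∀ i, 0 ≤ y (some (.inl (.inr i))) + s₂ := by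
    intro i
    have h1 : (y (some (.inl (.inr i)))).natAbs ≤ s₂ :=
      Finset.single_le_sum (f := fun i => (y (some (.inl (.inr i)))).natAbs)
        (fun _ _ => Nat.zero_le _) (Finset.mem_univ i)
    omega
  have hsq : ∀ j, 0 ≤ y (some (.inr j)) + sq := by
    intro j
    have h1 : (y (some (.inr j))).natAbs ≤ sq :=
      Finset.single_le_sum (f := fun j => (y (some (.inr j))).natAbs)
        (fun _ _ => Nat.zero_le _) (Finset.mem_univ j)
    omega
  let z₁ : Fin k₁ → ℕ := fun i => (y (some (.inl (.inl i))) + s₁).toNat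
  let z₂ : Fin k₂ → ℕ := fun i => (y (some (.inl (.inr i))) + s₂).toNat
  let zq : Fin l → ℕ := fun j => (y (some (.inr j)) + sq).toNat
  have hz₁ : ∀ i, (z₁ i : ℤ) = y (some (.inl (.inl i))) + s₁ := fun i => Int.toNat_of_nonneg (hs₁ i)
  have hz₂ : ∀ i, (z₂ i : ℤ) = y (some (.inl (.inr i))) + s₂ := fun i => Int.toNat_of_nonneg (hs₂ i)
  have hzq : ∀ j, (zq j : ℤ) = y (some (.inr j)) + sq := fun j => Int.toNat_of_nonneg (hsq j)
  let Y : ℕ := (y none).toNat
  have hY : (Y : ℤ) = y none := Int.toNat_of_nonneg (by omega)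
  have hw : ∀ i : Idx k₁ k₂ l m, (wt e₁ z₁ z₂ zq (s₁ + s₂) sq Y i : ℤ) =
      s₁ + s₂ + sq + ∑ p, vec e₁ i p * y p := by
    intro i
    rcases i with q | q
    · rw [sum_vec_inl]
      simp only [wt]
      push_cast
      rw [hz₁, hz₂]
      ring
    · rw [sum_vec_inr]
      simp only [wt]
      by_cases h : q.2 = e₁
      · rw [if_pos h, if_pos h]
        push_cast
        rw [hzq, hY]
        ring
      · rw [if_neg h, if_neg h]
        push_cast
        rw [hzq]
        ring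
  refine ⟨z₁, z₂, zq, s₁ + s₂, sq, Y, by omega, ?_⟩
  intro i j h1 h2
  have h3 := hy3 _ ⟨i, j, h1, h2, rfl⟩
  have h4 : ∑ p, vec e₁ i p * y p = ∑ p, vec e₁ j p * y p := by
    simp only [sub_mul, Finset.sum_sub_distrib] at h3
    linarith
  have h5 := hw i
  have h6 := hw j
  rw [← h4, ← h5] at h6
  exact_mod_cast h6.symm

end Q217.TG
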